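import Mathlib

/-!
# Double stars and domatic numbers: basic tools
-/

namespace Pool.Agent.Q221.Dom

open Finset
open scoped Classical

variable {V : Type}

/-- no two vertices of `A` are adjacent -/
def Ind (G : SimpleGraph V) (A : Finset V) : Prop := ∀ x ∈ A, ∀ y ∈ A, ¬ G.Adj x y

/-- any two vertices of `A` are adjacent -/
def Clq (G : SimpleGraph V) (A : Finset V) : Prop := ∀ x ∈ A, ∀ y ∈ A, x ≠ y → G.Adj x y

/-- there is no induced double star with `t` leaves at both centres -/
def SFree (t : ℕ) (G : SimpleGraph V) : Prop :=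
  ∀ u v : V, G.Adj u v → ∀ A B : Finset V, A.card = t → B.card = t →
    (∀ a ∈ A, G.Adj u a ∧ ¬ G.Adj v a) → (∀ b ∈ B, G.Adj v b ∧ ¬ G.Adj u b) →
    (∀ a ∈ A, a ≠ v) → (∀ b ∈ B, b ≠ u) →
    Ind G A → Ind G B → (∀ a ∈ A, ∀ b ∈ B, ¬ G.Adj a b) → False

theorem Ind.mono {G : SimpleGraph V} {A B : Finset V} (h : Ind G B) (hAB : A ⊆ B) : Ind G A :=
  fun x hx y hy => h x (hAB hx) y (hAB hy)

theorem Clq.mono {G : SimpleGraph V} {A B : Finset V} (h : Clq G B) (hAB : A ⊆ B) : Clq G A :=
  fun x hx y hy => h x (hAB hx) y (hAB hy)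

theorem Ind.insert' {G : SimpleGraph V} {A : Finset V} {v : V} (h : Ind G A)
    (hv : ∀ x ∈ A, ¬ G.Adj v x) : Ind G (insert v A) := by
  intro x hx y hy
  rcases Finset.mem_insert.1 hx with hx' | hx' <;> rcases Finset.mem_insert.1 hy with hy' | hy'
  · rw [hx', hy']
    exact G.loopless.irrefl _
  · rw [hx']
    exact hv y hy'
  · rw [hy']
    exact fun h => hv x hx' h.symm
  · exact h x hx' y hy'

theorem Clq.insert' {G : SimpleGraph V} {A : Finset V} {v : V} (h : Clq G A)
    (hv : ∀ x ∈ A, G.Adj v x) : Clq G (insert v A) := by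
  intro x hx y hy hxy
  rcases Finset.mem_insert.1 hx with hx' | hx' <;> rcases Finset.mem_insert.1 hy with hy' | hy'
  · exact absurd (hx'.trans hy'.symm) hxy
  · rw [hx']
    exact hv y hy'
  · rw [hy']
    exact (hv x hx').symm
  · exact h x hx' y hy' hxy

theorem ramsey (m n : ℕ) : ∃ R : ℕ, ∀ (V : Type) (G : SimpleGraph V) (A : Finset V),
    R ≤ A.card → (∃ Q ⊆ A, Q.card = m ∧ Clq G Q) ∨ (∃ J ⊆ A, J.card = n ∧ Ind G J) := by
  induction m generalizing n with
  | zero =>
    exact ⟨0, fun V G A _ => Or.inl ⟨∅, Finset.empty_subset _, rfl, by intro x hx; simp at hx⟩⟩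
  | succ m ihm =>
    induction n with
    | zero =>
      exact ⟨0, fun V G A _ => Or.inr ⟨∅, Finset.empty_subset _, rfl, by intro x hx; simp at hx⟩⟩
    | succ n ihn =>
      obtain ⟨R1, h1⟩ := ihm (n + 1)
      obtain ⟨R2, h2⟩ := ihn
      refine ⟨R1 + R2 + 1, fun V G A hA => ?_⟩
      obtain ⟨v, hv⟩ : A.Nonempty := Finset.card_pos.1 (by omega)
      have hsplit := Finset.card_filter_add_card_filter_not (s := A.erase v) (p := fun x => G.Adj v x)
      rw [Finset.card_erase_of_mem hv] at hsplit
      have hmem : ∀ {p : V → Prop} [DecidablePred p] {B : Finset V}, B ⊆ (A.erase v).filter p →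
          v ∉ B ∧ B ⊆ A ∧ ∀ x ∈ B, p x := by
        intro p _ B hB
        exact ⟨fun h => (Finset.notMem_erase v A) (Finset.mem_filter.1 (hB h)).1,
          hB.trans ((Finset.filter_subset _ _).trans (Finset.erase_subset _ _)),
          fun x hx => (Finset.mem_filter.1 (hB hx)).2⟩
      rcases Nat.lt_or_ge ((A.erase v).filter (fun x => G.Adj v x)).card R1 with hlt | hge
      · have h3 : R2 ≤ ((A.erase v).filter (fun x => ¬ G.Adj v x)).card := by omega
        rcases h2 V G _ h3 with ⟨Q, hQ, hQc, hQ2⟩ | ⟨J, hJ, hJc, hJ2⟩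
        · exact Or.inl ⟨Q, (hmem hQ).2.1, hQc, hQ2⟩
        · obtain ⟨a1, a2, a3⟩ := hmem hJ
          exact Or.inr ⟨insert v J, Finset.insert_subset hv a2,
            by rw [Finset.card_insert_of_notMem a1, hJc], hJ2.insert' a3⟩
      · rcases h1 V G _ hge with ⟨Q, hQ, hQc, hQ2⟩ | ⟨J, hJ, hJc, hJ2⟩
        · obtain ⟨a1, a2, a3⟩ := hmem hQ
          exact Or.inl ⟨insert v Q, Finset.insert_subset hv a2,
            by rw [Finset.card_insert_of_notMem a1, hQc], hQ2.insert' a3⟩
        · exact Or.inr ⟨J, (hmem hJ).2.1, hJc, hJ2⟩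

/-- independent sets in sets of small degree -/
theorem ind_of_deg {G : SimpleGraph V} (M : ℕ) (hM0 : 0 < M) (t : ℕ) (A : Finset V)
    (hM : ∀ x ∈ A, (A.filter (fun y => G.Adj x y)).card < M) (hA : t * M ≤ A.card) :
    ∃ J ⊆ A, J.card = t ∧ Ind G J := by
  induction t generalizing A with
  | zero => exact ⟨∅, Finset.empty_subset _, rfl, by intro x hx; simp at hx⟩
  | succ t ih =>
    have h3 : (t + 1) * M = t * M + M := by ring
    obtain ⟨v, hv⟩ : A.Nonempty := Finset.card_pos.1 (by omega)
    have hMv := hM v hv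
    have hBA : (A.erase v).filter (fun y => ¬ G.Adj v y) ⊆ A :=
      (Finset.filter_subset _ _).trans (Finset.erase_subset _ _)
    have hcard : t * M ≤ ((A.erase v).filter (fun y => ¬ G.Adj v y)).card := by
      have h1 := Finset.card_filter_add_card_filter_not (s := A.erase v) (p := fun x => G.Adj v x)
      rw [Finset.card_erase_of_mem hv] at h1
      have h2 : ((A.erase v).filter (fun x => G.Adj v x)).card ≤
          (A.filter (fun x => G.Adj v x)).card :=
        Finset.card_le_card (Finset.filter_subset_filter _ (Finset.erase_subset _ _))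
      have h4 : 0 < A.card := Finset.card_pos.2 ⟨v, hv⟩
      omega
    obtain ⟨J, hJ, hJc, hJi⟩ := ih _ (fun x hx => lt_of_le_of_lt
      (Finset.card_le_card (Finset.filter_subset_filter _ hBA)) (hM x (hBA hx))) hcard
    have hvJ : v ∉ J := fun h => (Finset.notMem_erase v A) (Finset.mem_filter.1 (hJ h)).1
    exact ⟨insert v J, Finset.insert_subset hv (hJ.trans hBA),
      by rw [Finset.card_insert_of_notMem hvJ, hJc],
      hJi.insert' (fun x hx => (Finset.mem_filter.1 (hJ hx)).2)⟩

/-- **Colouring of digraphs with small out-degrees.** -/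
theorem own_coloring [Fintype V] (K : ℕ) (own : V → V → Prop)
    (hK : ∀ v, (univ.filter (fun w => own v w)).card ≤ K) (A : Finset V) :
    ∃ c : V → Fin (2 * K + 1), ∀ v ∈ A, ∀ w ∈ A, v ≠ w → own v w → c v ≠ c w := by
  induction hn : A.card generalizing A with
  | zero =>
    rw [Finset.card_eq_zero] at hn
    subst hn
    exact ⟨fun _ => 0, by intro v hv; simp at hv⟩
  | succ n ih =>
    -- a vertex with small degree
    obtain ⟨v, hv, hdeg⟩ : ∃ v ∈ A, (A.filter (fun w => own v w ∨ own w v)).card ≤ 2 * K := by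
      by_contra hcon
      push Not at hcon
      have h1 : ∑ v ∈ A, (2 * K + 1) ≤ ∑ v ∈ A, (A.filter (fun w => own v w ∨ own w v)).card :=
        Finset.sum_le_sum (fun v hv => hcon v hv)
      have h2 : ∑ v ∈ A, (A.filter (fun w => own v w ∨ own w v)).card ≤
          ∑ v ∈ A, ((A.filter (fun w => own v w)).card + (A.filter (fun w => own w v)).card) := by
        refine Finset.sum_le_sum (fun v _ => ?_)
        rw [Finset.filter_or]
        exact Finset.card_union_le _ _
      have h3 : ∑ v ∈ A, (A.filter (fun w => own w v)).card =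
          ∑ v ∈ A, (A.filter (fun w => own v w)).card := by
        have e1 := Finset.sum_card_bipartiteAbove_eq_sum_card_bipartiteBelow (s := A) (t := A)
          (r := fun v w => own v w)
        simp only [Finset.bipartiteAbove, Finset.bipartiteBelow] at e1
        exact e1.symm
      have h4 : ∑ v ∈ A, (A.filter (fun w => own v w)).card ≤ ∑ v ∈ A, K :=
        Finset.sum_le_sum (fun v _ => (Finset.card_le_card
          (Finset.filter_subset_filter _ (Finset.subset_univ _))).trans (hK v))
      rw [Finset.sum_add_distrib, h3] at h2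
      rw [Finset.sum_const, smul_eq_mul] at h1 h4
      rw [hn] at h1 h4
      nlinarith
    obtain ⟨c, hc⟩ := ih (A.erase v) (by rw [Finset.card_erase_of_mem hv, hn]; rfl)
    obtain ⟨a, ha⟩ : ∃ a : Fin (2 * K + 1), a ∉ (A.filter (fun w => own v w ∨ own w v)).image c := by
      by_contra hcon
      push Not at hcon
      have h1 : (univ : Finset (Fin (2 * K + 1))) ⊆
          (A.filter (fun w => own v w ∨ own w v)).image c := fun a _ => hcon a
      have h2 := (Finset.card_le_card h1).trans Finset.card_image_le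
      rw [Finset.card_univ, Fintype.card_fin] at h2
      omega
    refine ⟨Function.update c v a, fun x hx y hy hxy ho => ?_⟩
    by_cases hxv : x = v
    · subst hxv
      rw [Function.update_self, Function.update_of_ne (Ne.symm hxy)]
      exact fun h => ha (Finset.mem_image.2 ⟨y, Finset.mem_filter.2 ⟨hy, Or.inl ho⟩, h.symm⟩)
    · by_cases hyv : y = v
      · subst hyv
        rw [Function.update_self, Function.update_of_ne hxv]
        exact fun h => ha (Finset.mem_image.2 ⟨x, Finset.mem_filter.2 ⟨hx, Or.inr ho⟩, h⟩)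
      · rw [Function.update_of_ne hxv, Function.update_of_ne hyv]
        exact hc x (Finset.mem_erase.2 ⟨hxv, hx⟩) y (Finset.mem_erase.2 ⟨hyv, hy⟩) hxy ho

end Pool.Agent.Q221.Dom
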