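import Pool.Agent.Q221.Dom.Basic

/-!
# The block lemma
-/

namespace Pool.Agent.Q221.Dom

open Finset
open scoped Classical

variable {V : Type}

/-- cutting a set into blocks -/
theorem cut_blocks {t b : ℕ} {J : Finset V} (hJ : J.card = t * b) :
    ∃ β : Fin t → Finset V, (∀ i, (β i).card = b) ∧ (∀ i, β i ⊆ J) ∧
      (∀ i j, i ≠ j → Disjoint (β i) (β j)) := by
  have e := (J.equivFinOfCardEq hJ).symm
  let f : Fin t × Fin b → V := fun p => (e (finProdFinEquiv p)).1
  have hf : Function.Injective f := by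
    intro p q hpq
    exact finProdFinEquiv.injective (e.injective (Subtype.ext hpq))
  refine ⟨fun i => univ.image (fun j => f (i, j)), fun i => ?_, fun i x hx => ?_,
    fun i j hij => ?_⟩
  · rw [Finset.card_image_of_injective _ (fun a b hab => (Prod.mk.inj (hf hab)).2),
      Finset.card_univ, Fintype.card_fin]
  · obtain ⟨j, _, rfl⟩ := Finset.mem_image.1 hx
    exact (e (finProdFinEquiv (i, j))).2
  · rw [Finset.disjoint_left]
    intro x hx hy
    obtain ⟨a, _, ha⟩ := Finset.mem_image.1 hx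
    obtain ⟨b, _, hb⟩ := Finset.mem_image.1 hy
    exact hij (Prod.mk.inj (hf (ha.trans hb.symm))).1

/-- a block system: a vertex `y` with `t` disjoint sets of `b` neighbours in `X`, with independent
union -/
def Blk (G : SimpleGraph V) (X Y : Finset V) (t b : ℕ) (p : V × (Fin t → Finset V)) : Prop :=
  p.1 ∈ Y ∧ (∀ i, (p.2 i).card = b ∧ p.2 i ⊆ X) ∧ (∀ i j, i ≠ j → Disjoint (p.2 i) (p.2 j)) ∧
    Ind G (univ.biUnion p.2) ∧ ∀ x ∈ univ.biUnion p.2, G.Adj p.1 x

/-- a largest family with a property -/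
theorem exists_max_family {α : Type} [Fintype α] (P : Finset α → Prop) (h0 : P ∅) :
    ∃ 𝓓, P 𝓓 ∧ ∀ 𝓔, P 𝓔 → 𝓔.card ≤ 𝓓.card := by
  obtain ⟨𝓓, h𝓓, hmax⟩ := Finset.exists_max_image (univ.filter P) Finset.card
    ⟨∅, Finset.mem_filter.2 ⟨Finset.mem_univ _, h0⟩⟩
  exact ⟨𝓓, (Finset.mem_filter.1 h𝓓).2, fun 𝓔 h =>
    hmax 𝓔 (Finset.mem_filter.2 ⟨Finset.mem_univ _, h⟩)⟩

theorem block_lemma [Fintype V] {G : SimpleGraph V} {t b M : ℕ} (ht : 0 < t) (hb : 0 < b)
    (hM : 0 < M) (hS : SFree t G) (X Y : Finset V)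
    (hY : ∀ y ∈ Y, (Y.filter (fun z => G.Adj y z)).card < M) :
    ∃ (U : Finset V) (𝓑 : Finset (Finset V)), U ⊆ X ∧ (∀ B ∈ 𝓑, B.card = b ∧ B ⊆ U) ∧
      (∀ B ∈ 𝓑, ∀ B' ∈ 𝓑, B ≠ B' → Disjoint B B') ∧
      (∀ y ∈ Y, ∀ J ⊆ X \ U, (∀ x ∈ J, G.Adj y x) → Ind G J → J.card ≠ t * b) ∧
      (∀ x ∈ U, (Y.filter (fun z => G.Adj z x ∧ ∀ B ∈ 𝓑, ∃ w ∈ B, ¬ G.Adj z w)).card ≤
        M + b ^ t * (t * M)) := by
  -- a maximal family of block systems with disjoint unions
  obtain ⟨𝓓, ⟨hblk, hdis⟩, hmax⟩ := exists_max_family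
    (fun 𝓓 : Finset (V × (Fin t → Finset V)) =>
      (∀ p ∈ 𝓓, Blk G X Y t b p) ∧ ∀ p ∈ 𝓓, ∀ q ∈ 𝓓, p ≠ q →
        Disjoint (univ.biUnion p.2) (univ.biUnion q.2)) ⟨by simp, by simp⟩
  refine ⟨𝓓.biUnion (fun p => univ.biUnion p.2), 𝓓.biUnion (fun p => univ.image p.2),
    ?_, ?_, ?_, ?_, ?_⟩
  · intro x hx
    obtain ⟨p, hp, hx⟩ := Finset.mem_biUnion.1 hx
    obtain ⟨i, _, hx⟩ := Finset.mem_biUnion.1 hx
    exact ((hblk p hp).2.1 i).2 hx
  · intro B hB
    obtain ⟨p, hp, hB⟩ := Finset.mem_biUnion.1 hB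
    obtain ⟨i, _, rfl⟩ := Finset.mem_image.1 hB
    exact ⟨((hblk p hp).2.1 i).1, fun x hx => Finset.mem_biUnion.2
      ⟨p, hp, Finset.mem_biUnion.2 ⟨i, Finset.mem_univ _, hx⟩⟩⟩
  · intro B hB B' hB' hne
    obtain ⟨p, hp, hB⟩ := Finset.mem_biUnion.1 hB
    obtain ⟨i, _, rfl⟩ := Finset.mem_image.1 hB
    obtain ⟨q, hq, hB'⟩ := Finset.mem_biUnion.1 hB'
    obtain ⟨j, _, rfl⟩ := Finset.mem_image.1 hB'
    by_cases hpq : p = q
    · subst hpq
      exact (hblk p hp).2.2.1 i j (fun h => hne (by rw [h]))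
    · exact Finset.disjoint_of_subset_left (Finset.subset_biUnion_of_mem p.2 (Finset.mem_univ i))
        (Finset.disjoint_of_subset_right (Finset.subset_biUnion_of_mem q.2 (Finset.mem_univ j))
        (hdis p hp q hq hpq))
  · intro y hy J hJ hyJ hJi hJc
    obtain ⟨β, hβ1, hβ2, hβ3⟩ := cut_blocks hJc
    have hun : univ.biUnion β ⊆ J := by
      intro x hx
      obtain ⟨i, _, hx⟩ := Finset.mem_biUnion.1 hx
      exact hβ2 i hx
    have hblk' : Blk G X Y t b (y, β) := ⟨hy, fun i => ⟨hβ1 i, fun x hx =>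
      (Finset.mem_sdiff.1 (hJ (hβ2 i hx))).1⟩, hβ3, hJi.mono hun, fun x hx => hyJ x (hun hx)⟩
    have hd : ∀ q ∈ 𝓓, Disjoint (univ.biUnion β) (univ.biUnion q.2) := by
      intro q hq
      rw [Finset.disjoint_left]
      intro x hx hx'
      exact (Finset.mem_sdiff.1 (hJ (hun hx))).2 (Finset.mem_biUnion.2 ⟨q, hq, hx'⟩)
    have hnot : (y, β) ∉ 𝓓 := by
      intro h
      have h1 := hd _ h
      rw [disjoint_self, Finset.bot_eq_empty] at h1
      have h2 : (β ⟨0, ht⟩).card = 0 := by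
        rw [Finset.card_eq_zero, ← Finset.subset_empty, ← h1]
        exact Finset.subset_biUnion_of_mem β (Finset.mem_univ _)
      rw [hβ1] at h2
      omega
    have h1 := hmax (insert (y, β) 𝓓) (by
      refine ⟨fun p hp => ?_, fun p hp q hq hpq => ?_⟩
      · rcases Finset.mem_insert.1 hp with hp' | hp'
        · rw [hp']
          exact hblk'
        · exact hblk p hp'
      · rcases Finset.mem_insert.1 hp with hp' | hp' <;> rcases Finset.mem_insert.1 hq with hq' | hq'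
        · exact absurd (hp'.trans hq'.symm) hpq
        · rw [hp']
          exact hd q hq'
        · rw [hq']
          exact (hd p hp').symm
        · exact hdis p hp' q hq' hpq)
    rw [Finset.card_insert_of_notMem hnot] at h1
    omega
  · intro x hx
    obtain ⟨p, hp, hx⟩ := Finset.mem_biUnion.1 hx
    obtain ⟨p1, p2, p3, p4, p5⟩ := hblk p hp
    by_contra hcon
    push Not at hcon
    set F := Y.filter (fun z => G.Adj z x ∧
      ∀ B ∈ 𝓓.biUnion (fun p => univ.image p.2), ∃ w ∈ B, ¬ G.Adj z w) with hF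
    -- remove the centre and its neighbours
    have hsplit := Finset.card_filter_add_card_filter_not (s := F)
      (p := fun z => z = p.1 ∨ G.Adj p.1 z)
    have hsmall : (F.filter (fun z => z = p.1 ∨ G.Adj p.1 z)).card ≤ M := by
      have h1 : F.filter (fun z => z = p.1 ∨ G.Adj p.1 z) ⊆
          insert p.1 (Y.filter (fun z => G.Adj p.1 z)) := by
        intro z hz
        rw [Finset.mem_filter, hF, Finset.mem_filter] at hz
        rcases hz.2 with h | h
        · exact Finset.mem_insert.2 (Or.inl h)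
        · exact Finset.mem_insert.2 (Or.inr (Finset.mem_filter.2 ⟨hz.1.1, h⟩))
      have h2 := (Finset.card_le_card h1).trans (Finset.card_insert_le _ _)
      have h3 := hY p.1 p1
      omega
    have hbig : b ^ t * (t * M) < (F.filter (fun z => ¬ (z = p.1 ∨ G.Adj p.1 z))).card := by
      omega
    have hg : ∀ z : V, ∃ g : Fin t → V, z ∈ F → ∀ i, g i ∈ p.2 i ∧ ¬ G.Adj z (g i) := by
      intro z
      by_cases hz : z ∈ F
      · have h1 : ∀ i, ∃ w, w ∈ p.2 i ∧ ¬ G.Adj z w := fun i => by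
          obtain ⟨w, hw, hw2⟩ := (Finset.mem_filter.1 hz).2.2 (p.2 i)
            (Finset.mem_biUnion.2 ⟨p, hp, Finset.mem_image_of_mem _ (Finset.mem_univ i)⟩)
          exact ⟨w, hw, hw2⟩
        choose g hg using h1
        exact ⟨g, fun _ => hg⟩
      · exact ⟨fun _ => z, fun h => absurd h hz⟩
    choose g hg using hg
    have hcardpi : (Fintype.piFinset p.2).card = b ^ t := by
      rw [Fintype.card_piFinset, Finset.prod_congr rfl (fun i _ => (p2 i).1), Finset.prod_const,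
        Finset.card_univ, Fintype.card_fin]
    rw [← hcardpi] at hbig
    obtain ⟨φ, hφ, hφ2⟩ := Finset.exists_lt_card_fiber_of_mul_lt_card_of_maps_to (f := g)
      (t := Fintype.piFinset p.2) (fun z hz => Fintype.mem_piFinset.2 (fun i =>
        (hg z (Finset.mem_filter.1 hz).1 i).1)) hbig
    obtain ⟨J, hJ, hJc, hJi⟩ := ind_of_deg (G := G) M hM t
      ((F.filter (fun z => ¬ (z = p.1 ∨ G.Adj p.1 z))).filter (fun z => g z = φ)) (by
        intro z hz
        have hz1 := (Finset.mem_filter.1 (Finset.mem_filter.1 hz).1).1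
        refine lt_of_le_of_lt (Finset.card_le_card (Finset.filter_subset_filter _ ?_))
          (hY z (Finset.mem_filter.1 hz1).1)
        exact (Finset.filter_subset _ _).trans ((Finset.filter_subset _ _).trans
          (Finset.filter_subset _ _))) hφ2.le
    have hJ2 : ∀ z ∈ J, z ∈ F ∧ z ≠ p.1 ∧ ¬ G.Adj p.1 z ∧ g z = φ := by
      intro z hz
      have h1 := Finset.mem_filter.1 (hJ hz)
      have h2 := Finset.mem_filter.1 h1.1
      exact ⟨h2.1, fun h => h2.2 (Or.inl h), fun h => h2.2 (Or.inr h), h1.2⟩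
    obtain ⟨z0, hz0⟩ : J.Nonempty := Finset.card_pos.1 (by omega)
    have hφm : ∀ i, φ i ∈ p.2 i := fun i => Fintype.mem_piFinset.1 hφ i
    have hφu : ∀ i, φ i ∈ univ.biUnion p.2 := fun i =>
      Finset.mem_biUnion.2 ⟨i, Finset.mem_univ _, hφm i⟩
    have hzφ : ∀ z ∈ J, ∀ i, ¬ G.Adj z (φ i) := fun z hz i => by
      have h1 := (hg z (hJ2 z hz).1 i).2
      rwa [(hJ2 z hz).2.2.2] at h1
    have hinj : Function.Injective φ := by
      intro i j hij
      by_contra hne
      exact (Finset.disjoint_left.1 (p3 i j hne)) (hφm i) (hij ▸ hφm j)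
    have hTc : (univ.image φ).card = t := by
      rw [Finset.card_image_of_injective _ hinj, Finset.card_univ, Fintype.card_fin]
    refine hS p.1 x (p5 x hx) (univ.image φ) J hTc hJc ?_ ?_ ?_ ?_ ?_ hJi ?_
    · intro a ha
      obtain ⟨i, _, rfl⟩ := Finset.mem_image.1 ha
      exact ⟨p5 _ (hφu i), p4 x hx _ (hφu i)⟩
    · intro z hz
      exact ⟨(Finset.mem_filter.1 (hJ2 z hz).1).2.1.symm, (hJ2 z hz).2.2.1⟩
    · intro a ha h
      obtain ⟨i, _, rfl⟩ := Finset.mem_image.1 ha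
      exact hzφ z0 hz0 i (h ▸ (Finset.mem_filter.1 (hJ2 z0 hz0).1).2.1)
    · intro z hz
      exact (hJ2 z hz).2.1
    · refine p4.mono ?_
      intro a ha
      obtain ⟨i, _, rfl⟩ := Finset.mem_image.1 ha
      exact hφu i
    · intro a ha z hz h
      obtain ⟨i, _, rfl⟩ := Finset.mem_image.1 ha
      exact hzφ z hz i h.symm

end Pool.Agent.Q221.Dom
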