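import Pool.Agent.Q221.Dom.Basic

/-!
# Graphs without an induced double star are chi-bounded
-/

namespace Pool.Agent.Q221.Dom

open Finset
open scoped Classical

variable {V : Type}

/-- the neighbours of `v` in `I` -/
noncomputable def nb (G : SimpleGraph V) (I : Finset V) (v : V) : Finset V :=
  I.filter (fun x => G.Adj v x)

theorem mem_nb {G : SimpleGraph V} {I : Finset V} {v x : V} :
    x ∈ nb G I v ↔ x ∈ I ∧ G.Adj v x := Finset.mem_filter

theorem nb_subset {G : SimpleGraph V} {I : Finset V} {v : V} : nb G I v ⊆ I :=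
  Finset.filter_subset _ _

/-- a piece: a vertex together with `2t` independent neighbours -/
def Pc (G : SimpleGraph V) (Z : Finset V) (t : ℕ) (p : V × Finset V) : Prop :=
  p.1 ∈ Z ∧ p.2 ⊆ Z ∧ p.2.card = 2 * t ∧ Ind G p.2 ∧ ∀ x ∈ p.2, G.Adj p.1 x

/-- the vertices of a piece -/
def InP (G : SimpleGraph V) (t : ℕ) (p : V × Finset V) (v : V) : Prop :=
  G.Adj p.1 v ∨ t ≤ (nb G p.2 v).card

/-- the exceptional vertices of a piece -/
def InEx (G : SimpleGraph V) (t : ℕ) (p : V × Finset V) (w : V) : Prop :=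
  ¬ InP G t p w ∧ (nb G p.2 w).Nonempty

/-- every large subset of `Z` contains an independent set of size `t` -/
def Rich (G : SimpleGraph V) (Z : Finset V) (R t : ℕ) : Prop :=
  ∀ A ⊆ Z, R ≤ A.card → ∃ J ⊆ A, J.card = t ∧ Ind G J

theorem Pc.inP_fst {G : SimpleGraph V} {Z : Finset V} {t : ℕ} {p : V × Finset V}
    (hp : Pc G Z t p) : InP G t p p.1 := by
  right
  have : nb G p.2 p.1 = p.2 := Finset.filter_true_of_mem hp.2.2.2.2
  rw [this, hp.2.2.1]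
  omega

theorem Pc.inP_snd {G : SimpleGraph V} {Z : Finset V} {t : ℕ} {p : V × Finset V}
    (hp : Pc G Z t p) {x : V} (hx : x ∈ p.2) : InP G t p x := Or.inl (hp.2.2.2.2 x hx)

theorem no_nb {G : SimpleGraph V} {t : ℕ} {p : V × Finset V} {w : V} (h1 : ¬ InP G t p w)
    (h2 : ¬ InEx G t p w) {x : V} (hx : x ∈ p.2) : ¬ G.Adj x w := fun h =>
  h2 ⟨h1, ⟨x, mem_nb.2 ⟨hx, h.symm⟩⟩⟩

theorem ex_card {G : SimpleGraph V} {Z : Finset V} {t R : ℕ} (ht : 0 < t) (hS : SFree t G)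
    (hR : Rich G Z R t) {p : V × Finset V} (hp : Pc G Z t p) :
    (Z.filter (fun w => InEx G t p w)).card ≤ R * 2 ^ (2 * t) := by
  have hfst := hp.inP_fst
  obtain ⟨h1, h2, h3, h4, h5⟩ := hp
  rw [← h3, ← Finset.card_powerset]
  refine Finset.card_le_mul_card_image_of_maps_to (f := fun w => nb G p.2 w) ?_ R ?_
  · intro w _
    exact Finset.mem_powerset.2 nb_subset
  · intro T hT
    by_contra hcon
    push Not at hcon
    obtain ⟨J, hJ, hJc, hJi⟩ := hR _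
      ((Finset.filter_subset _ _).trans (Finset.filter_subset _ _)) hcon.le
    have hJ2 : ∀ w ∈ J, InEx G t p w ∧ nb G p.2 w = T := by
      intro w hw
      have := hJ hw
      rw [Finset.mem_filter, Finset.mem_filter] at this
      exact ⟨this.1.2, this.2⟩
    obtain ⟨w0, hw0⟩ : J.Nonempty := Finset.card_pos.1 (by omega)
    obtain ⟨hw1, hw2⟩ := hJ2 w0 hw0
    have hTne : T.Nonempty := hw2 ▸ hw1.2
    have hTc : T.card < t := by
      rw [← hw2]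
      by_contra hge
      exact hw1.1 (Or.inr (not_lt.1 hge))
    obtain ⟨x, hx⟩ := hTne
    have hTI : T ⊆ p.2 := hw2 ▸ nb_subset
    have hc : t ≤ (p.2 \ T).card := by
      rw [Finset.card_sdiff_of_subset hTI, h3]
      omega
    obtain ⟨T', hT', hT'c⟩ := Finset.exists_subset_card_eq hc
    have hT'2 : ∀ a ∈ T', a ∈ p.2 ∧ a ∉ T := fun a ha => Finset.mem_sdiff.1 (hT' ha)
    refine hS p.1 x (h5 x (hTI hx)) T' J hT'c hJc (fun a ha => ⟨h5 a (hT'2 a ha).1,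
      h4 x (hTI hx) a (hT'2 a ha).1⟩) (fun b hb => ⟨?_, fun h => (hJ2 b hb).1.1 (Or.inl h)⟩)
      (fun a ha h => (hT'2 a ha).2 (h ▸ hx)) (fun b hb h => (hJ2 b hb).1.1 (h ▸ hfst))
      (h4.mono (fun a ha => (hT'2 a ha).1)) hJi (fun a ha b hb h => ?_)
    · have : x ∈ nb G p.2 b := (hJ2 b hb).2 ▸ hx
      exact (mem_nb.1 this).2.symm
    · apply (hT'2 a ha).2
      rw [← (hJ2 b hb).2]
      exact mem_nb.2 ⟨(hT'2 a ha).1, h.symm⟩

theorem beta_card {G : SimpleGraph V} {Z : Finset V} {t R : ℕ} (hS : SFree t G)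
    (hR : Rich G Z R t) {p : V × Finset V} (hp : Pc G Z t p) {r : V} (hr : InP G t p r)
    (hr2 : (nb G p.2 r).card < t) :
    (Z.filter (fun w => G.Adj r w ∧ ¬ InP G t p w ∧ ¬ InEx G t p w)).card ≤ R := by
  by_contra hcon
  push Not at hcon
  obtain ⟨J, hJ, hJc, hJi⟩ := hR _ (Finset.filter_subset _ _) hcon.le
  have hJ2 : ∀ w ∈ J, G.Adj r w ∧ ¬ InP G t p w ∧ ¬ InEx G t p w :=
    fun w hw => (Finset.mem_filter.1 (hJ hw)).2
  have hfst := hp.inP_fst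
  obtain ⟨h1, h2, h3, h4, h5⟩ := hp
  have hur : G.Adj p.1 r := by
    rcases hr with h | h
    · exact h
    · omega
  have hc : t ≤ ((p.2 \ nb G p.2 r).erase r).card := by
    have e1 := Finset.pred_card_le_card_erase (s := p.2 \ nb G p.2 r) (a := r)
    rw [Finset.card_sdiff_of_subset nb_subset, h3] at e1
    omega
  obtain ⟨T', hT', hT'c⟩ := Finset.exists_subset_card_eq hc
  have hT'2 : ∀ a ∈ T', a ≠ r ∧ a ∈ p.2 ∧ a ∉ nb G p.2 r := fun a ha =>
    ⟨(Finset.mem_erase.1 (hT' ha)).1, Finset.mem_sdiff.1 (Finset.mem_erase.1 (hT' ha)).2⟩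
  refine hS p.1 r hur T' J hT'c hJc (fun a ha => ⟨h5 a (hT'2 a ha).2.1, fun h =>
    (hT'2 a ha).2.2 (mem_nb.2 ⟨(hT'2 a ha).2.1, h⟩)⟩) (fun b hb => ⟨(hJ2 b hb).1, fun h =>
    (hJ2 b hb).2.1 (Or.inl h)⟩) (fun a ha => (hT'2 a ha).1)
    (fun b hb h => (hJ2 b hb).2.1 (h ▸ hfst)) (h4.mono (fun a ha => (hT'2 a ha).2.1)) hJi
    (fun a ha b hb => no_nb (hJ2 b hb).2.1 (hJ2 b hb).2.2 (hT'2 a ha).2.1)

theorem alpha_card {G : SimpleGraph V} {Z : Finset V} {t R : ℕ} (hS : SFree t G)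
    (hR : Rich G Z R t) {p : V × Finset V} (hp : Pc G Z t p) {r w : V}
    (hr : t ≤ (nb G p.2 r).card) (hw1 : ¬ InP G t p w) (hw2 : ¬ InEx G t p w)
    (hrw : G.Adj r w) :
    (Z.filter (fun w' => G.Adj w w' ∧ ¬ InP G t p w' ∧ ¬ InEx G t p w' ∧ ¬ G.Adj r w')).card
      ≤ R := by
  by_contra hcon
  push Not at hcon
  obtain ⟨J, hJ, hJc, hJi⟩ := hR _ (Finset.filter_subset _ _) hcon.le
  have hJ2 : ∀ w' ∈ J, G.Adj w w' ∧ ¬ InP G t p w' ∧ ¬ InEx G t p w' ∧ ¬ G.Adj r w' :=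
    fun w hw => (Finset.mem_filter.1 (hJ hw)).2
  obtain ⟨T', hT', hT'c⟩ := Finset.exists_subset_card_eq hr
  have hT'2 : ∀ a ∈ T', a ∈ p.2 ∧ G.Adj r a := fun a ha => mem_nb.1 (hT' ha)
  refine hS r w hrw T' J hT'c hJc (fun a ha => ⟨(hT'2 a ha).2, fun h =>
    no_nb hw1 hw2 (hT'2 a ha).1 h.symm⟩) (fun b hb => ⟨(hJ2 b hb).1, (hJ2 b hb).2.2.2⟩)
    (fun a ha h => hw1 (h ▸ hp.inP_snd (hT'2 a ha).1))
    (fun b hb h => (hJ2 b hb).2.1 (h ▸ Or.inr hr))
    (hp.2.2.2.1.mono (fun a ha => (hT'2 a ha).1)) hJi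
    (fun a ha b hb => no_nb (hJ2 b hb).2.1 (hJ2 b hb).2.2.1 (hT'2 a ha).1)

/-- colouring a set covered by the neighbourhoods of a few anchors -/
theorem anchor_coloring {G : SimpleGraph V} {Z : Finset V} {c : ℕ} (κ : V → V → Fin c)
    (hκ : ∀ a ∈ Z, ∀ x ∈ Z, ∀ y ∈ Z, G.Adj a x → G.Adj a y → G.Adj x y → κ a x ≠ κ a y)
    (n : ℕ) (A : Finset V) (hAZ : A ⊆ Z) (hA : A.card ≤ n) (hn : 0 < n) :
    ∃ χ : V → Fin n × Fin c, ∀ x ∈ Z, ∀ y ∈ Z, (∃ a ∈ A, G.Adj a x) → (∃ a ∈ A, G.Adj a y) →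
      G.Adj x y → χ x ≠ χ y := by
  obtain ⟨f, hf⟩ : ∃ f : V → Fin n, Set.InjOn f A := by
    have e1 : Function.Injective (fun a : A => Fin.castLE hA (A.equivFin a)) := by
      intro a b hab
      exact A.equivFin.injective (Fin.castLE_injective hA hab)
    refine ⟨fun x => if h : x ∈ A then Fin.castLE hA (A.equivFin ⟨x, h⟩) else ⟨0, hn⟩, ?_⟩
    intro a ha b hb hab
    have ha' : a ∈ A := ha
    have hb' : b ∈ A := hb
    simp only [dif_pos ha', dif_pos hb'] at hab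
    have := @e1 ⟨a, ha'⟩ ⟨b, hb'⟩ hab
    exact congrArg Subtype.val this
  refine ⟨fun x => if h : ∃ a ∈ A, G.Adj a x then (f (Classical.choose h), κ (Classical.choose h) x)
    else (⟨0, hn⟩, κ x x), fun x hx y hy hax hay hxy h => ?_⟩
  simp only [dif_pos hax, dif_pos hay] at h
  obtain ⟨a1, a2⟩ := Classical.choose_spec hax
  obtain ⟨b1, b2⟩ := Classical.choose_spec hay
  have h1 := hf a1 b1 (congrArg Prod.fst h)
  have h2 := congrArg Prod.snd h
  simp only at h2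
  rw [h1] at a2 h2
  exact hκ _ (hAZ b1) x hx y hy a2 b2 hxy h2

end Pool.Agent.Q221.Dom
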