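import Pool.Agent.Q221.Dom.Chi

/-!
# Graphs without an induced double star are chi-bounded: main step
-/

namespace Pool.Agent.Q221.Dom

open Finset
open scoped Classical

variable {V : Type}

/-- the vertex lies in some piece -/
def Cov (G : SimpleGraph V) (Z : Finset V) (t : ℕ) (x : V) : Prop :=
  ∃ p, Pc G Z t p ∧ InP G t p x

/-- `r` is a regular earlier neighbour of `w` -/
def Reg (G : SimpleGraph V) (Z : Finset V) (t : ℕ) (rk : V × Finset V → ℕ)
    (pc : V → V × Finset V) (w r : V) : Prop :=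
  r ∈ Z ∧ Cov G Z t r ∧ G.Adj r w ∧ rk (pc r) < rk (pc w) ∧ t ≤ (nb G (pc r).2 r).card ∧
    ¬ InEx G t (pc r) w

def Own1 (G : SimpleGraph V) (t : ℕ) (pc : V → V × Finset V) (w w' : V) : Prop :=
  InEx G t (pc w) w'

def Own2 (G : SimpleGraph V) (t : ℕ) (pc : V → V × Finset V) (w w' : V) : Prop :=
  (nb G (pc w).2 w).card < t ∧ ¬ InP G t (pc w) w' ∧ ¬ InEx G t (pc w) w'

def Own3 (G : SimpleGraph V) (Z : Finset V) (t : ℕ) (rk : V × Finset V → ℕ)
    (pc : V → V × Finset V) (vm : V → V) (w w' : V) : Prop :=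
  (∃ r, Reg G Z t rk pc w r) ∧ InEx G t (pc (vm w)) w'

def Own4 (G : SimpleGraph V) (Z : Finset V) (t : ℕ) (rk : V × Finset V → ℕ)
    (pc : V → V × Finset V) (vm : V → V) (w w' : V) : Prop :=
  (∃ r, Reg G Z t rk pc w r) ∧ ¬ InP G t (pc (vm w)) w' ∧ ¬ InEx G t (pc (vm w)) w' ∧
    ¬ G.Adj (vm w) w'

/-- `w` owns the edge to `w'` -/
def Own (G : SimpleGraph V) (Z : Finset V) (t : ℕ) (rk : V × Finset V → ℕ)
    (pc : V → V × Finset V) (vm : V → V) (w w' : V) : Prop :=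
  (w ∈ Z ∧ Cov G Z t w) ∧ (w' ∈ Z ∧ G.Adj w w') ∧
    (Own1 G t pc w w' ∨ Own2 G t pc w w' ∨ Own3 G Z t rk pc vm w w' ∨ Own4 G Z t rk pc vm w w')

theorem card_or4 [Fintype V] {P : V → Prop} {P1 P2 P3 P4 : V → Prop} [DecidablePred P]
    [DecidablePred P1] [DecidablePred P2] [DecidablePred P3] [DecidablePred P4] {a b c d : ℕ}
    (h : ∀ x, P x → P1 x ∨ P2 x ∨ P3 x ∨ P4 x)
    (h1 : (univ.filter P1).card ≤ a) (h2 : (univ.filter P2).card ≤ b)
    (h3 : (univ.filter P3).card ≤ c) (h4 : (univ.filter P4).card ≤ d) :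
    (univ.filter P).card ≤ a + b + c + d := by
  have hs : univ.filter P ⊆ ((univ.filter P1 ∪ univ.filter P2) ∪ univ.filter P3) ∪
      univ.filter P4 := by
    intro x hx
    simp only [Finset.mem_union, Finset.mem_filter, Finset.mem_univ, true_and] at hx ⊢
    rcases h x hx with h | h | h | h
    · exact Or.inl (Or.inl (Or.inl h))
    · exact Or.inl (Or.inl (Or.inr h))
    · exact Or.inl (Or.inr h)
    · exact Or.inr h
  have e1 := Finset.card_le_card hs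
  have e2 := Finset.card_union_le ((univ.filter P1 ∪ univ.filter P2) ∪ univ.filter P3)
    (univ.filter P4)
  have e3 := Finset.card_union_le (univ.filter P1 ∪ univ.filter P2) (univ.filter P3)
  have e4 := Finset.card_union_le (univ.filter P1) (univ.filter P2)
  omega

theorem card_sub_filter [Fintype V] {Z : Finset V} {P Q : V → Prop} [DecidablePred Q]
    [DecidablePred P] {a : ℕ} (h1 : (Z.filter Q).card ≤ a) (h : ∀ x, P x → x ∈ Z ∧ Q x) :
    (univ.filter P).card ≤ a := by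
  refine (Finset.card_le_card ?_).trans h1
  intro x hx
  rw [Finset.mem_filter] at hx ⊢
  exact h x hx.2

theorem own_card [Fintype V] {G : SimpleGraph V} {Z : Finset V} {t R : ℕ} (ht : 0 < t)
    (hS : SFree t G) (hR : Rich G Z R t) (rk : V × Finset V → ℕ) (pc : V → V × Finset V)
    (vm : V → V) (hpc : ∀ x, Cov G Z t x → Pc G Z t (pc x) ∧ InP G t (pc x) x ∧
      ∀ q, Pc G Z t q → InP G t q x → rk (pc x) ≤ rk q)
    (hvm : ∀ w, (∃ r, Reg G Z t rk pc w r) → Reg G Z t rk pc w (vm w)) (w : V) :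
    (univ.filter (fun w' => Own G Z t rk pc vm w w')).card ≤
      R * 2 ^ (2 * t) + R + R * 2 ^ (2 * t) + R := by
  by_cases hw : w ∈ Z ∧ Cov G Z t w
  · obtain ⟨p1, p2, p3⟩ := hpc w hw.2
    refine card_or4 (P1 := fun w' => (w' ∈ Z ∧ G.Adj w w') ∧ Own1 G t pc w w')
      (P2 := fun w' => (w' ∈ Z ∧ G.Adj w w') ∧ Own2 G t pc w w')
      (P3 := fun w' => (w' ∈ Z ∧ G.Adj w w') ∧ Own3 G Z t rk pc vm w w')
      (P4 := fun w' => (w' ∈ Z ∧ G.Adj w w') ∧ Own4 G Z t rk pc vm w w') ?_ ?_ ?_ ?_ ?_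
    · rintro w' ⟨_, h1, h | h | h | h⟩
      · exact Or.inl ⟨h1, h⟩
      · exact Or.inr (Or.inl ⟨h1, h⟩)
      · exact Or.inr (Or.inr (Or.inl ⟨h1, h⟩))
      · exact Or.inr (Or.inr (Or.inr ⟨h1, h⟩))
    · exact card_sub_filter (ex_card ht hS hR p1) (fun x hx => ⟨hx.1.1, hx.2⟩)
    · by_cases hb : (nb G (pc w).2 w).card < t
      · exact card_sub_filter (beta_card hS hR p1 p2 hb) (fun x hx => ⟨hx.1.1, hx.1.2, hx.2.2⟩)
      · exact card_sub_filter (Z := ∅) (Q := fun _ => True) (by simp) (fun x hx => absurd hx.2.1 hb)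
    · by_cases hr : ∃ r, Reg G Z t rk pc w r
      · obtain ⟨q1, q2, q3⟩ := hpc (vm w) (hvm w hr).2.1
        exact card_sub_filter (ex_card ht hS hR q1) (fun x hx => ⟨hx.1.1, hx.2.2⟩)
      · exact card_sub_filter (Z := ∅) (Q := fun _ => True) (by simp) (fun x hx => absurd hx.2.1 hr)
    · by_cases hr : ∃ r, Reg G Z t rk pc w r
      · obtain ⟨r1, r2, r3, r4, r5, r6⟩ := hvm w hr
        obtain ⟨q1, q2, q3⟩ := hpc (vm w) r2
        have hn : ¬ InP G t (pc (vm w)) w := fun h => by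
          have := p3 _ q1 h
          omega
        exact card_sub_filter (alpha_card hS hR q1 r5 hn r6 r3)
          (fun x hx => ⟨hx.1.1, hx.1.2, hx.2.2.1, hx.2.2.2.1, hx.2.2.2.2⟩)
      · exact card_sub_filter (Z := ∅) (Q := fun _ => True) (by simp) (fun x hx => absurd hx.2.1 hr)
  · have : univ.filter (fun w' => Own G Z t rk pc vm w w') = ∅ := by
      rw [Finset.filter_eq_empty_iff]
      intro x _ hx
      exact hw hx.1
    rw [this]
    exact Nat.zero_le _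

/-- adjacent vertices without ownership and with regular earlier neighbours have the same
canonical one -/
theorem claim1_aux {G : SimpleGraph V} {Z : Finset V} {t : ℕ} (rk : V × Finset V → ℕ)
    (pc : V → V × Finset V) (vm : V → V) (key : V → ℕ)
    (hkey : ∀ x y, key x ≤ key y → rk (pc x) ≤ rk (pc y))
    (hpc : ∀ x, Cov G Z t x → Pc G Z t (pc x) ∧ InP G t (pc x) x ∧
      ∀ q, Pc G Z t q → InP G t q x → rk (pc x) ≤ rk q)
    (hvm : ∀ w, (∃ r, Reg G Z t rk pc w r) → Reg G Z t rk pc w (vm w) ∧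
      ∀ r, Reg G Z t rk pc w r → key (vm w) ≤ key r)
    {w w' : V} (hw : w ∈ Z) (hw' : w' ∈ Z) (cw : Cov G Z t w) (cw' : Cov G Z t w')
    (hadj : G.Adj w w') (h1 : ¬ Own G Z t rk pc vm w w') (h2 : ¬ Own G Z t rk pc vm w' w)
    (hr : ∃ r, Reg G Z t rk pc w r) (hr' : ∃ r, Reg G Z t rk pc w' r)
    (hle : rk (pc w) ≤ rk (pc w')) : key (vm w) = key (vm w') := by
  have key1 : ∀ {a b : V}, a ∈ Z → b ∈ Z → Cov G Z t a → Cov G Z t b → G.Adj a b →
      ¬ Own G Z t rk pc vm a b → (∃ r, Reg G Z t rk pc a r) →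
      rk (pc (vm a)) < rk (pc b) → Reg G Z t rk pc b (vm a) := by
    intro a b ha hb ca cb hab ho hra hlt
    obtain ⟨r1, r2, r3, r4, r5, r6⟩ := (hvm a hra).1
    obtain ⟨q1, q2, q3⟩ := hpc (vm a) r2
    have n3 : ¬ InEx G t (pc (vm a)) b := fun h =>
      ho ⟨⟨ha, ca⟩, ⟨hb, hab⟩, Or.inr (Or.inr (Or.inl ⟨hra, h⟩))⟩
    have nP : ¬ InP G t (pc (vm a)) b := fun h => by
      have := (hpc b cb).2.2 _ q1 h
      omega
    have n4 : G.Adj (vm a) b := by
      by_contra hcon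
      exact ho ⟨⟨ha, ca⟩, ⟨hb, hab⟩, Or.inr (Or.inr (Or.inr ⟨hra, nP, n3, hcon⟩))⟩
    exact ⟨r1, r2, n4, hlt, r5, n3⟩
  have e1 : rk (pc (vm w)) < rk (pc w) := (hvm w hr).1.2.2.2.1
  have s1 := key1 hw hw' cw cw' hadj h1 hr (lt_of_lt_of_le e1 hle)
  have e2 := (hvm w' hr').2 _ s1
  have e3 := hkey _ _ e2
  have s2 := key1 hw' hw cw' cw hadj.symm h2 hr' (lt_of_le_of_lt e3 e1)
  exact le_antisymm ((hvm w hr).2 _ s2) e2

/-- adjacent vertices without ownership and without regular earlier neighbours lie in the same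
piece -/
theorem claim2_aux {G : SimpleGraph V} {Z : Finset V} {t : ℕ} (rk : V × Finset V → ℕ)
    (pc : V → V × Finset V) (vm : V → V)
    (hpc : ∀ x, Cov G Z t x → Pc G Z t (pc x) ∧ InP G t (pc x) x ∧
      ∀ q, Pc G Z t q → InP G t q x → rk (pc x) ≤ rk q)
    {w w' : V} (hw : w ∈ Z) (hw' : w' ∈ Z) (cw : Cov G Z t w) (cw' : Cov G Z t w')
    (hadj : G.Adj w w') (h1 : ¬ Own G Z t rk pc vm w w')
    (hr' : ¬ ∃ r, Reg G Z t rk pc w' r) : rk (pc w') ≤ rk (pc w) := by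
  by_contra hlt
  push Not at hlt
  have nP : ¬ InP G t (pc w) w' := fun h => by
    have := (hpc w' cw').2.2 _ (hpc w cw).1 h
    omega
  have n1 : ¬ InEx G t (pc w) w' := fun h => h1 ⟨⟨hw, cw⟩, ⟨hw', hadj⟩, Or.inl h⟩
  have n2 : t ≤ (nb G (pc w).2 w).card := by
    by_contra hcon
    exact h1 ⟨⟨hw, cw⟩, ⟨hw', hadj⟩, Or.inr (Or.inl ⟨not_le.1 hcon, nP, n1⟩)⟩
  exact hr' ⟨w, hw, cw, hadj, hlt, n2, n1⟩

end Pool.Agent.Q221.Dom
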