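import Pool.Agent.Q221.Dom.Chi2

/-!
# Graphs without an induced double star are chi-bounded: conclusion
-/

namespace Pool.Agent.Q221.Dom

open Finset
open scoped Classical

variable {V : Type}

/-- the uncovered vertices own all their edges -/
def Own0 (G : SimpleGraph V) (Z : Finset V) (t : ℕ) (v w : V) : Prop :=
  (v ∈ Z ∧ ¬ Cov G Z t v) ∧ w ∈ Z ∧ G.Adj v w

theorem chi_step [Fintype V] {G : SimpleGraph V} {Z : Finset V} {t R R2 c : ℕ} (ht : 0 < t)
    (hS : SFree t G) (hR : Rich G Z R t) (hR2 : Rich G Z R2 (2 * t)) (hc : 0 < c)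
    (hκ : ∀ a ∈ Z, ∃ κ : V → Fin c, ∀ x ∈ Z, ∀ y ∈ Z, G.Adj a x → G.Adj a y → G.Adj x y →
      κ x ≠ κ y) :
    ∃ χ : V → Fin 3 × Fin (2 * R2 + 1) × (Fin (2 * t + 1) × Fin c) × Fin c ×
      Fin (2 * (R * 2 ^ (2 * t) + R + R * 2 ^ (2 * t) + R) + 1),
      ∀ x ∈ Z, ∀ y ∈ Z, G.Adj x y → χ x ≠ χ y := by
  obtain ⟨κ, hκ⟩ : ∃ κ : V → V → Fin c, ∀ a ∈ Z, ∀ x ∈ Z, ∀ y ∈ Z, G.Adj a x → G.Adj a y →
      G.Adj x y → κ a x ≠ κ a y := by
    refine ⟨fun a => if h : a ∈ Z then Classical.choose (hκ a h) else fun _ => ⟨0, hc⟩, ?_⟩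
    intro a ha
    simp only [dif_pos ha]
    exact Classical.choose_spec (hκ a ha)
  -- ranks of pieces
  let rk : V × Finset V → ℕ := fun p => (Fintype.equivFin (V × Finset V) p).val
  have hrk : ∀ p q, rk p = rk q → p = q := fun p q h =>
    (Fintype.equivFin (V × Finset V)).injective (Fin.ext h)
  obtain ⟨pc, hpc⟩ : ∃ pc : V → V × Finset V, ∀ x, Cov G Z t x → Pc G Z t (pc x) ∧
      InP G t (pc x) x ∧ ∀ q, Pc G Z t q → InP G t q x → rk (pc x) ≤ rk q := by
    have h1 : ∀ x, ∃ p, Cov G Z t x → Pc G Z t p ∧ InP G t p x ∧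
        ∀ q, Pc G Z t q → InP G t q x → rk p ≤ rk q := by
      intro x
      by_cases hx : Cov G Z t x
      · obtain ⟨p0, hp0⟩ := hx
        obtain ⟨p, hp, hmin⟩ := Finset.exists_min_image
          (univ.filter (fun p => Pc G Z t p ∧ InP G t p x)) rk
          ⟨p0, Finset.mem_filter.2 ⟨Finset.mem_univ _, hp0⟩⟩
        have hp' := (Finset.mem_filter.1 hp).2
        exact ⟨p, fun _ => ⟨hp'.1, hp'.2, fun q h1 h2 =>
          hmin q (Finset.mem_filter.2 ⟨Finset.mem_univ _, h1, h2⟩)⟩⟩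
      · exact ⟨(x, ∅), fun h => absurd h hx⟩
    choose pc hpc using h1
    exact ⟨pc, hpc⟩
  let key : V → ℕ := fun x => rk (pc x) * Fintype.card V + (Fintype.equivFin V x).val
  have hkey : ∀ x y, key x ≤ key y → rk (pc x) ≤ rk (pc y) := by
    intro x y hxy
    by_contra hcon
    push Not at hcon
    have h1 : (Fintype.equivFin V y).val < Fintype.card V := (Fintype.equivFin V y).isLt
    have h2 : rk (pc x) * Fintype.card V + (Fintype.equivFin V x).val ≤
      rk (pc y) * Fintype.card V + (Fintype.equivFin V y).val := hxy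
    have h3 : (rk (pc y) + 1) * Fintype.card V ≤ rk (pc x) * Fintype.card V :=
      Nat.mul_le_mul_right _ hcon
    rw [add_mul, one_mul] at h3
    omega
  have hkey2 : ∀ x y, key x = key y → x = y := by
    intro x y hxy
    have h1 : rk (pc x) = rk (pc y) := le_antisymm (hkey x y hxy.le) (hkey y x hxy.ge)
    have h2 : rk (pc x) * Fintype.card V + (Fintype.equivFin V x).val =
      rk (pc y) * Fintype.card V + (Fintype.equivFin V y).val := hxy
    rw [h1] at h2
    exact (Fintype.equivFin V).injective (Fin.ext (by omega))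
  obtain ⟨vm, hvm⟩ : ∃ vm : V → V, ∀ w, (∃ r, Reg G Z t rk pc w r) →
      Reg G Z t rk pc w (vm w) ∧ ∀ r, Reg G Z t rk pc w r → key (vm w) ≤ key r := by
    have h1 : ∀ w, ∃ v, (∃ r, Reg G Z t rk pc w r) →
        Reg G Z t rk pc w v ∧ ∀ r, Reg G Z t rk pc w r → key v ≤ key r := by
      intro w
      by_cases hw : ∃ r, Reg G Z t rk pc w r
      · obtain ⟨r0, hr0⟩ := hw
        obtain ⟨p, hp, hmin⟩ := Finset.exists_min_image
          (univ.filter (fun r => Reg G Z t rk pc w r)) key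
          ⟨r0, Finset.mem_filter.2 ⟨Finset.mem_univ _, hr0⟩⟩
        exact ⟨p, fun _ => ⟨(Finset.mem_filter.1 hp).2, fun q h1 =>
          hmin q (Finset.mem_filter.2 ⟨Finset.mem_univ _, h1⟩)⟩⟩
      · exact ⟨w, fun h => absurd h hw⟩
    choose vm hvm using h1
    exact ⟨vm, hvm⟩
  obtain ⟨c0, hc0⟩ := own_coloring R2 (Own0 G Z t)
    (by
      intro v
      by_cases hv : v ∈ Z ∧ ¬ Cov G Z t v
      · have hcard : (Z.filter (fun w => G.Adj v w)).card ≤ R2 := by
          by_contra hcon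
          push Not at hcon
          obtain ⟨J, hJ, hJc, hJi⟩ := hR2 _ (Finset.filter_subset _ _) hcon.le
          have hp : Pc G Z t (v, J) := ⟨hv.1, hJ.trans (Finset.filter_subset _ _), hJc, hJi,
            fun x hx => (Finset.mem_filter.1 (hJ hx)).2⟩
          exact hv.2 ⟨_, hp, hp.inP_fst⟩
        exact card_sub_filter hcard (fun x hx => hx.2)
      · exact card_sub_filter (Z := ∅) (Q := fun _ => True) (by simp)
          (fun x hx => absurd hx.1 hv)) univ
  obtain ⟨χA, hχA⟩ : ∃ χA : V × Finset V → V → Fin (2 * t + 1) × Fin c, ∀ p, Pc G Z t p →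
      ∀ x ∈ Z, ∀ y ∈ Z, InP G t p x → InP G t p y → G.Adj x y → χA p x ≠ χA p y := by
    have h1 : ∀ p : V × Finset V, ∃ χ : V → Fin (2 * t + 1) × Fin c, Pc G Z t p →
        ∀ x ∈ Z, ∀ y ∈ Z, InP G t p x → InP G t p y → G.Adj x y → χ x ≠ χ y := by
      intro p
      by_cases hp : Pc G Z t p
      · obtain ⟨χ, hχ⟩ := anchor_coloring κ hκ (2 * t + 1) (insert p.1 p.2)
          (Finset.insert_subset hp.1 hp.2.1)
          ((Finset.card_insert_le _ _).trans (by rw [hp.2.2.1])) (by omega)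
        have h2 : ∀ x, InP G t p x → ∃ a ∈ insert p.1 p.2, G.Adj a x := by
          intro x hx
          rcases hx with h | h
          · exact ⟨p.1, Finset.mem_insert_self _ _, h⟩
          · obtain ⟨a, ha⟩ : (nb G p.2 x).Nonempty := Finset.card_pos.1 (by omega)
            exact ⟨a, Finset.mem_insert_of_mem (mem_nb.1 ha).1, (mem_nb.1 ha).2.symm⟩
        exact ⟨χ, fun _ x hx y hy hx2 hy2 hxy => hχ x hx y hy (h2 x hx2) (h2 y hy2) hxy⟩
      · exact ⟨fun _ => (0, ⟨0, hc⟩), fun h => absurd h hp⟩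
    choose χA hχA using h1
    exact ⟨χA, hχA⟩
  obtain ⟨ω, hω⟩ := own_coloring (R * 2 ^ (2 * t) + R + R * 2 ^ (2 * t) + R)
    (fun w w' => Own G Z t rk pc vm w w')
    (fun w => own_card ht hS hR rk pc vm hpc (fun w h => (hvm w h).1) w) univ
  refine ⟨fun v => (if Cov G Z t v then (if ∃ r, Reg G Z t rk pc v r then 2 else 1) else 0,
    c0 v, χA (pc v) v, κ (vm v) v, ω v), fun x hx y hy hxy h => ?_⟩
  simp only [Prod.mk.injEq] at h
  obtain ⟨e1, e2, e3, e4, e5⟩ := h
  have hne := G.ne_of_adj hxy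
  by_cases cx : Cov G Z t x
  · by_cases cy : Cov G Z t y
    · have o1 : ¬ Own G Z t rk pc vm x y := fun h =>
        hω x (Finset.mem_univ _) y (Finset.mem_univ _) hne h e5
      have o2 : ¬ Own G Z t rk pc vm y x := fun h =>
        hω y (Finset.mem_univ _) x (Finset.mem_univ _) hne.symm h e5.symm
      by_cases rx : ∃ r, Reg G Z t rk pc x r
      · by_cases ry : ∃ r, Reg G Z t rk pc y r
        · have hk : vm x = vm y := by
            apply hkey2
            rcases le_total (rk (pc x)) (rk (pc y)) with hle | hle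
            · exact claim1_aux rk pc vm key hkey hpc hvm hx hy cx cy hxy o1 o2 rx ry hle
            · exact (claim1_aux rk pc vm key hkey hpc hvm hy hx cy cx hxy.symm o2 o1 ry rx
                hle).symm
          have r1 := (hvm x rx).1
          have r2 := (hvm y ry).1
          rw [← hk] at e4 r2
          exact hκ _ r1.1 x hx y hy r1.2.2.1 r2.2.2.1 hxy e4
        · rw [if_pos cx, if_pos cy, if_pos rx, if_neg ry] at e1
          exact absurd e1 (by decide)
      · by_cases ry : ∃ r, Reg G Z t rk pc y r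
        · rw [if_pos cx, if_pos cy, if_pos ry, if_neg rx] at e1
          exact absurd e1 (by decide)
        · have h1 := claim2_aux rk pc vm hpc hx hy cx cy hxy o1 ry
          have h2 := claim2_aux rk pc vm hpc hy hx cy cx hxy.symm o2 rx
          have h3 : pc x = pc y := hrk _ _ (le_antisymm h2 h1)
          have r1 := hpc x cx
          have r2 := hpc y cy
          rw [← h3] at e3 r2
          exact hχA _ r1.1 x hx y hy r1.2.1 r2.2.1 hxy e3
    · rw [if_pos cx, if_neg cy] at e1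
      split_ifs at e1 <;> exact absurd e1 (by decide)
  · exact hc0 x (Finset.mem_univ _) y (Finset.mem_univ _) hne ⟨⟨hx, cx⟩, hy, hxy⟩ e2

/-- **Chi-boundedness.** -/
theorem chi_bound (t : ℕ) (ht : 0 < t) (m : ℕ) : ∃ c : ℕ, 0 < c ∧ ∀ (V : Type) [Fintype V]
    (G : SimpleGraph V) (Z : Finset V), SFree t G → (∀ Q ⊆ Z, Q.card = m → ¬ Clq G Q) →
    ∃ χ : V → Fin c, ∀ x ∈ Z, ∀ y ∈ Z, G.Adj x y → χ x ≠ χ y := by
  induction m with
  | zero =>
    refine ⟨1, one_pos, fun V _ G Z _ hQ => ?_⟩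
    exact absurd (fun x hx => absurd hx (Finset.notMem_empty x))
      (hQ ∅ (Finset.empty_subset _) Finset.card_empty)
  | succ m ih =>
    obtain ⟨c, hc0, hc⟩ := ih
    obtain ⟨R, hR⟩ := ramsey (m + 1) t
    obtain ⟨R2, hR2⟩ := ramsey (m + 1) (2 * t)
    let α := Fin 3 × Fin (2 * R2 + 1) × (Fin (2 * t + 1) × Fin c) × Fin c ×
      Fin (2 * (R * 2 ^ (2 * t) + R + R * 2 ^ (2 * t) + R) + 1)
    have : Nonempty α := ⟨(0, 0, (0, ⟨0, hc0⟩), ⟨0, hc0⟩, 0)⟩
    refine ⟨Fintype.card α, Fintype.card_pos, fun V _ G Z hS hQ => ?_⟩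
    have hrich : ∀ n R', (∀ (V : Type) (G : SimpleGraph V) (A : Finset V),
        R' ≤ A.card → (∃ Q ⊆ A, Q.card = m + 1 ∧ Clq G Q) ∨ (∃ J ⊆ A, J.card = n ∧ Ind G J)) →
        Rich G Z R' n := by
      intro n R' h A hA hAc
      rcases h V G A hAc with ⟨Q, hQA, hQc, hQ2⟩ | h
      · exact absurd hQ2 (hQ Q (hQA.trans hA) hQc)
      · exact h
    obtain ⟨χ, hχ⟩ := chi_step ht hS (hrich t R hR) (hrich (2 * t) R2 hR2) hc0 (by
      intro a ha
      obtain ⟨κ, hκ⟩ := hc V G (Z.filter (fun x => G.Adj a x)) hS (by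
        intro Q hQ1 hQc hQ2
        have haQ : a ∉ Q := fun h => G.loopless.irrefl a (Finset.mem_filter.1 (hQ1 h)).2
        refine hQ (insert a Q) (Finset.insert_subset ha (hQ1.trans (Finset.filter_subset _ _)))
          (by rw [Finset.card_insert_of_notMem haQ, hQc]) (hQ2.insert'
            (fun x hx => (Finset.mem_filter.1 (hQ1 hx)).2)))
      exact ⟨κ, fun x hx y hy h1 h2 h3 => hκ x (Finset.mem_filter.2 ⟨hx, h1⟩) y
        (Finset.mem_filter.2 ⟨hy, h2⟩) h3⟩)
    exact ⟨fun x => Fintype.equivFin α (χ x), fun x hx y hy hxy h =>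
      hχ x hx y hy hxy ((Fintype.equivFin α).injective h)⟩

end Pool.Agent.Q221.Dom
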