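import Pool.Agent.Q221.Dom.Basic

/-!
# Polychromatic colourings from Hall's theorem
-/

namespace Pool.Agent.Q221.Dom

open Finset
open scoped Classical

variable {V : Type}

theorem poly_coloring [Fintype V] {ι : Type} [Fintype ι] (k : ℕ) (hk : 0 < k)
    (S : ι → Finset V) (a : ι → ℕ) (ha0 : ∀ i, 0 < a i) (ha : ∀ i, a i ≤ (S i).card)
    (hx : ∀ x : V, ∑ i ∈ univ.filter (fun i => x ∈ S i), (1 : ℚ) / a i ≤ 1 / k) :
    ∃ c : V → Fin k, ∀ i, ∀ j : Fin k, ∃ x ∈ S i, c x = j := by
  have hall : ∀ s : Finset (ι × Fin k), s.card ≤ (s.biUnion (fun p => S p.1)).card := by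
    intro s
    set I := s.image Prod.fst with hI
    have h1 : s.card ≤ I.card * k := by
      have : s ⊆ I ×ˢ (univ : Finset (Fin k)) := by
        intro p hp
        rw [Finset.mem_product]
        exact ⟨Finset.mem_image_of_mem _ hp, Finset.mem_univ _⟩
      have h2 := Finset.card_le_card this
      rwa [Finset.card_product, Finset.card_univ, Fintype.card_fin] at h2
    have hU : s.biUnion (fun p => S p.1) = I.biUnion S := by
      ext x
      simp only [Finset.mem_biUnion, hI, Finset.mem_image, Prod.exists, exists_and_right,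
        exists_eq_right]
    rw [hU]
    have h3 : (I.card : ℚ) ≤ ∑ i ∈ I, ∑ x ∈ S i, (1 : ℚ) / a i := by
      rw [Finset.card_eq_sum_ones, Nat.cast_sum]
      refine Finset.sum_le_sum (fun i _ => ?_)
      rw [Finset.sum_const, nsmul_eq_mul, Nat.cast_one]
      have e1 : (0 : ℚ) < a i := by exact_mod_cast ha0 i
      have e2 : (a i : ℚ) ≤ (S i).card := by exact_mod_cast ha i
      rw [mul_one_div, le_div_iff₀ e1]
      linarith
    have h4 : ∑ i ∈ I, ∑ x ∈ S i, (1 : ℚ) / a i =
        ∑ x ∈ I.biUnion S, ∑ i ∈ I.filter (fun i => x ∈ S i), (1 : ℚ) / a i := by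
      have e1 : ∑ i ∈ I, ∑ x ∈ S i, (1 : ℚ) / a i =
          ∑ i ∈ I, ∑ x ∈ I.biUnion S, if x ∈ S i then (1 : ℚ) / a i else 0 := by
        refine Finset.sum_congr rfl (fun i hi => ?_)
        rw [← Finset.sum_filter]
        refine Finset.sum_congr ?_ (fun _ _ => rfl)
        ext x
        simp only [Finset.mem_filter, Finset.mem_biUnion]
        exact ⟨fun h => ⟨⟨i, hi, h⟩, h⟩, fun h => h.2⟩
      rw [e1, Finset.sum_comm]
      refine Finset.sum_congr rfl (fun x _ => ?_)
      rw [← Finset.sum_filter]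
    have h5 : ∑ x ∈ I.biUnion S, ∑ i ∈ I.filter (fun i => x ∈ S i), (1 : ℚ) / a i ≤
        ∑ x ∈ I.biUnion S, (1 : ℚ) / k := by
      refine Finset.sum_le_sum (fun x _ => le_trans ?_ (hx x))
      refine Finset.sum_le_sum_of_subset_of_nonneg
        (Finset.filter_subset_filter _ (Finset.subset_univ _)) (fun i _ _ => by positivity)
    rw [Finset.sum_const, nsmul_eq_mul] at h5
    have hk' : (0 : ℚ) < k := by exact_mod_cast hk
    have h6 : (I.card : ℚ) ≤ (I.biUnion S).card * (1 / k) := h3.trans (h4.le.trans h5)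
    rw [mul_one_div, le_div_iff₀ hk'] at h6
    have h7 : I.card * k ≤ (I.biUnion S).card := by exact_mod_cast h6
    exact h1.trans h7
  obtain ⟨f, hf, hfS⟩ := (Finset.all_card_le_biUnion_card_iff_exists_injective
    (fun p : ι × Fin k => S p.1)).1 hall
  refine ⟨fun x => if h : ∃ p, f p = x then (Classical.choose h).2 else ⟨0, hk⟩, fun i j => ?_⟩
  refine ⟨f (i, j), hfS (i, j), ?_⟩
  have h : ∃ p, f p = f (i, j) := ⟨_, rfl⟩
  have h2 : (Classical.choose h : ι × Fin k) = (i, j) := hf (Classical.choose_spec h)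
  simp only [dif_pos h, h2]

end Pool.Agent.Q221.Dom
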