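import Pool.Agent.Q221.Dom.Hall

/-!
# Greedy levels and families of customers
-/

namespace Pool.Agent.Q221.Dom

open Finset
open scoped Classical

variable {V : Type}

/-- polychromatic colourings for finitely many families of customers -/
theorem poly_families [Fintype V] {Φ : Type} [Fintype Φ] (k : ℕ) (hk : 0 < k)
    (S : Φ → Finset (Finset V)) (a d : Φ → ℕ) (ha0 : ∀ φ, 0 < a φ)
    (ha : ∀ φ, ∀ T ∈ S φ, a φ ≤ T.card)
    (hd : ∀ φ, ∀ x : V, ((S φ).filter (fun T => x ∈ T)).card ≤ d φ)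
    (hsum : ∑ φ, (d φ : ℚ) / a φ ≤ 1 / k) :
    ∃ c : V → Fin k, ∀ φ, ∀ T ∈ S φ, ∀ j : Fin k, ∃ x ∈ T, c x = j := by
  obtain ⟨c, hc⟩ := poly_coloring (ι := (φ : Φ) × {T : Finset V // T ∈ S φ}) k hk
    (fun i => i.2.1) (fun i => a i.1) (fun i => ha0 i.1) (fun i => ha i.1 _ i.2.2) (by
      intro x
      refine le_trans ?_ hsum
      rw [Finset.sum_filter, Fintype.sum_sigma]
      refine Finset.sum_le_sum (fun φ _ => ?_)
      have h1 : ∑ y : {T : Finset V // T ∈ S φ}, (if x ∈ y.1 then (1 : ℚ) / a φ else 0) =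
          ∑ T ∈ S φ, if x ∈ T then (1 : ℚ) / a φ else 0 :=
        Finset.sum_coe_sort (S φ) (fun T => if x ∈ T then (1 : ℚ) / a φ else 0)
      refine le_trans h1.le ?_
      rw [← Finset.sum_filter, Finset.sum_const, nsmul_eq_mul, mul_one_div]
      exact div_le_div_of_nonneg_right (by exact_mod_cast hd φ x) (by positivity))
  exact ⟨c, fun φ T hT j => hc ⟨φ, ⟨T, hT⟩⟩ j⟩

/-- four families of customers -/
theorem poly4 [Fintype V] (k : ℕ) (hk : 0 < k) (S0 S1 S2 S3 : Finset (Finset V))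
    (a0 a1 a2 a3 d0 d1 d2 d3 : ℕ) (h0 : 0 < a0) (h1 : 0 < a1) (h2 : 0 < a2) (h3 : 0 < a3)
    (hs0 : ∀ T ∈ S0, a0 ≤ T.card) (hs1 : ∀ T ∈ S1, a1 ≤ T.card) (hs2 : ∀ T ∈ S2, a2 ≤ T.card)
    (hs3 : ∀ T ∈ S3, a3 ≤ T.card)
    (hd0 : ∀ x : V, (S0.filter (fun T => x ∈ T)).card ≤ d0)
    (hd1 : ∀ x : V, (S1.filter (fun T => x ∈ T)).card ≤ d1)
    (hd2 : ∀ x : V, (S2.filter (fun T => x ∈ T)).card ≤ d2)
    (hd3 : ∀ x : V, (S3.filter (fun T => x ∈ T)).card ≤ d3)
    (hsum : (d0 : ℚ) / a0 + (d1 : ℚ) / a1 + (d2 : ℚ) / a2 + (d3 : ℚ) / a3 ≤ 1 / k) :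
    ∃ c : V → Fin k, (∀ T ∈ S0, ∀ j : Fin k, ∃ x ∈ T, c x = j) ∧
      (∀ T ∈ S1, ∀ j : Fin k, ∃ x ∈ T, c x = j) ∧
      (∀ T ∈ S2, ∀ j : Fin k, ∃ x ∈ T, c x = j) ∧ (∀ T ∈ S3, ∀ j : Fin k, ∃ x ∈ T, c x = j) := by
  obtain ⟨c, hc⟩ := poly_families (Φ := Fin 4) k hk ![S0, S1, S2, S3] ![a0, a1, a2, a3]
    ![d0, d1, d2, d3] (by
      intro φ
      fin_cases φ
      exacts [h0, h1, h2, h3]) (by
      intro φ
      fin_cases φ
      exacts [hs0, hs1, hs2, hs3]) (by
      intro φ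
      fin_cases φ
      exacts [hd0, hd1, hd2, hd3]) (by
      rw [Fin.sum_univ_four]
      exact hsum)
  exact ⟨c, hc 0, hc 1, hc 2, hc 3⟩

theorem greedy_level {G : SimpleGraph V} (ρ : V → ℕ) (hρ : Function.Injective ρ) (n : ℕ) :
    ∀ A : Finset V, A.card ≤ n → ∃ I ⊆ A, Ind G I ∧
      ∀ x ∈ A, x ∉ I → ∃ y ∈ I, G.Adj x y ∧ ρ x < ρ y := by
  induction n with
  | zero =>
    intro A hA
    have : A = ∅ := Finset.card_eq_zero.1 (Nat.le_zero.1 hA)
    subst this
    exact ⟨∅, Finset.Subset.refl _, by intro x hx; simp at hx, by intro x hx; simp at hx⟩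
  | succ n ih =>
    intro A hA
    rcases A.eq_empty_or_nonempty with h | h
    · subst h
      exact ⟨∅, Finset.Subset.refl _, by intro x hx; simp at hx, by intro x hx; simp at hx⟩
    · obtain ⟨v, hv, hmax⟩ := Finset.exists_max_image A ρ h
      have hc : ((A.erase v).filter (fun x => ¬ G.Adj v x)).card ≤ n := by
        have h1 := Finset.card_le_card (Finset.filter_subset (fun x => ¬ G.Adj v x) (A.erase v))
        rw [Finset.card_erase_of_mem hv] at h1
        omega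
      obtain ⟨I, hI, hIi, hIx⟩ := ih _ hc
      refine ⟨insert v I, Finset.insert_subset hv (hI.trans ((Finset.filter_subset _ _).trans
        (Finset.erase_subset _ _))), hIi.insert' (fun x hx => (Finset.mem_filter.1 (hI hx)).2), ?_⟩
      intro x hx hxI
      rw [Finset.mem_insert, not_or] at hxI
      by_cases hvx : G.Adj v x
      · exact ⟨v, Finset.mem_insert_self _ _, hvx.symm,
          lt_of_le_of_ne (hmax x hx) (fun h => hxI.1 (hρ h))⟩
      · obtain ⟨y, hy, hy2⟩ := hIx x (Finset.mem_filter.2 ⟨Finset.mem_erase.2 ⟨hxI.1, hx⟩, hvx⟩)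
          hxI.2
        exact ⟨y, Finset.mem_insert_of_mem hy, hy2⟩

theorem levels {G : SimpleGraph V} (ρ : V → ℕ) (hρ : Function.Injective ρ) (A : Finset V)
    (k : ℕ) : ∃ Φ : ℕ → Finset V, (∀ j < k, Φ j ⊆ A ∧ Ind G (Φ j)) ∧
      (∀ i < k, ∀ j < k, i ≠ j → Disjoint (Φ i) (Φ j)) ∧
      ∀ x ∈ A, (∀ j < k, x ∉ Φ j) → ∀ j < k, ∃ y ∈ Φ j, G.Adj x y ∧ ρ x < ρ y := by
  induction k with
  | zero => exact ⟨fun _ => ∅, by simp, by simp, by simp⟩
  | succ k ih =>
    obtain ⟨Φ, h1, h2, h3⟩ := ih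
    obtain ⟨I, hI, hIi, hIx⟩ := greedy_level (G := G) ρ hρ _
      (A.filter (fun x => ∀ j < k, x ∉ Φ j)) le_rfl
    have hd : ∀ j < k, Disjoint I (Φ j) := by
      intro j hj
      rw [Finset.disjoint_left]
      intro x hx
      exact (Finset.mem_filter.1 (hI hx)).2 j hj
    refine ⟨fun j => if j < k then Φ j else I, ?_, ?_, ?_⟩
    · intro j hj
      by_cases hjk : j < k
      · simp only [if_pos hjk]
        exact h1 j hjk
      · simp only [if_neg hjk]
        exact ⟨hI.trans (Finset.filter_subset _ _), hIi⟩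
    · intro i hi j hj hij
      by_cases hik : i < k <;> by_cases hjk : j < k
      · simp only [if_pos hik, if_pos hjk]
        exact h2 i hik j hjk hij
      · simp only [if_pos hik, if_neg hjk]
        exact (hd i hik).symm
      · simp only [if_neg hik, if_pos hjk]
        exact hd j hjk
      · omega
    · intro x hx hxn j hj
      have hxn' : ∀ j < k, x ∉ Φ j := by
        intro j hj
        have := hxn j (by omega)
        simpa only [if_pos hj] using this
      by_cases hjk : j < k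
      · simp only [if_pos hjk]
        exact h3 x hx hxn' j hjk
      · simp only [if_neg hjk]
        have h4 := hxn k (by omega)
        simp only [lt_irrefl, if_false] at h4
        exact hIx x (Finset.mem_filter.2 ⟨hx, hxn'⟩) h4

end Pool.Agent.Q221.Dom
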