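import Pool.Agent.Q221.Dom.WPart
import Pool.Agent.Q221.Dom.Chi3

/-!
# Graphs without an induced double star have domatic number going to infinity with the minimum
degree
-/

namespace Pool.Agent.Q221.Dom

open Finset
open scoped Classical

variable {V : Type}

theorem core (t k : ℕ) (ht : 0 < t) (hk : 0 < k) : ∃ D : ℕ, ∀ (V : Type) [Fintype V]
    (G : SimpleGraph V), SFree t G → (∀ v, D ≤ (univ.filter (fun x => G.Adj v x)).card) →
    ∃ col : V → Fin k, ∀ v j, ∃ x, (x = v ∨ G.Adj v x) ∧ col x = j := by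
  obtain ⟨c, hc0, hc⟩ := chi_bound t ht (5 * k)
  obtain ⟨b, hb⟩ : ∃ b, b = 2 * k * c ^ 2 := ⟨_, rfl⟩
  obtain ⟨f1, hf1⟩ : ∃ f1, f1 = 1 + b ^ t * (t * 1) := ⟨_, rfl⟩
  obtain ⟨p, hp⟩ : ∃ p, p = t * b + b * f1 := ⟨_, rfl⟩
  obtain ⟨M, hM⟩ : ∃ M, M = c * p := ⟨_, rfl⟩
  have hb0 : 0 < b := by rw [hb]; positivity
  have hp0 : 0 < p := by rw [hp]; positivity
  have hM0 : 0 < M := by rw [hM]; positivity
  obtain ⟨τ, hτ⟩ : ∃ τ, τ = 2 * (t * M) := ⟨_, rfl⟩
  obtain ⟨f, hf⟩ : ∃ f, f = M + (4 * k) ^ t * (t * M) := ⟨_, rfl⟩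
  obtain ⟨s, hs⟩ : ∃ s, s = 4 * k * (k * τ) := ⟨_, rfl⟩
  refine ⟨M + (s + k * (t * (4 * k)) + 4 * k * f), fun V _ G hS hdeg => ?_⟩
  obtain ⟨𝒞, ⟨hC1, hC2⟩, hmax⟩ := exists_max_family (fun 𝒞 : Finset (Finset V) =>
    (∀ C ∈ 𝒞, Clq G C ∧ C.card = 5 * k) ∧ ∀ C ∈ 𝒞, ∀ C' ∈ 𝒞, C ≠ C' → Disjoint C C')
    ⟨by simp, by simp⟩
  let W : Finset V := 𝒞.biUnion id
  let Z : Finset V := univ \ W
  have hZ : ∀ x, x ∈ Z ↔ x ∉ W := fun x => by
    rw [Finset.mem_sdiff]
    exact ⟨fun h => h.2, fun h => ⟨Finset.mem_univ _, h⟩⟩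
  have hCW : ∀ C ∈ 𝒞, C ⊆ W := fun C hC x hx => Finset.mem_biUnion.2 ⟨C, hC, hx⟩
  have hnoclq : ∀ Q ⊆ Z, Q.card = 5 * k → ¬ Clq G Q := by
    intro Q hQ hQc hQ2
    have hd : ∀ C ∈ 𝒞, Disjoint Q C := by
      intro C hC
      rw [Finset.disjoint_left]
      intro x hx hx'
      exact (hZ x).1 (hQ hx) (hCW C hC hx')
    have hQn : Q ∉ 𝒞 := by
      intro h
      have h1 := hd Q h
      rw [disjoint_self, Finset.bot_eq_empty] at h1
      rw [h1, Finset.card_empty] at hQc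
      omega
    have h1 := hmax (insert Q 𝒞) (by
      refine ⟨fun C hC => ?_, fun C hC C' hC' hne => ?_⟩
      · rcases Finset.mem_insert.1 hC with h | h
        · rw [h]
          exact ⟨hQ2, hQc⟩
        · exact hC1 C h
      · rcases Finset.mem_insert.1 hC with h | h <;> rcases Finset.mem_insert.1 hC' with h' | h'
        · exact absurd (h.trans h'.symm) hne
        · rw [h]
          exact hd C' h'
        · rw [h']
          exact (hd C h).symm
        · exact hC2 C h C' h' hne)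
    rw [Finset.card_insert_of_notMem hQn] at h1
    omega
  obtain ⟨χ, hχ⟩ := hc V G Z hS hnoclq
  obtain ⟨cZ, hcZ⟩ := z_part ht hk hc0 hS Z χ hχ b f1 p hb hf1 hp
  let L : Finset V := Z.filter (fun z => (Z.filter (fun x => G.Adj z x)).card < M)
  have hLZ : L ⊆ Z := Finset.filter_subset _ _
  obtain ⟨cW, hcW1, hcW2⟩ := w_part ht hk hM0 hS W L
    (by
      rw [Finset.disjoint_left]
      intro x hx hxL
      exact (hZ x).1 (hLZ hxL) hx)
    (fun z hz => lt_of_le_of_lt (Finset.card_le_card (Finset.filter_subset_filter _ hLZ))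
      (Finset.mem_filter.1 hz).2)
    𝒞 (fun C hC => ⟨hCW C hC, (hC1 C hC).1, (hC1 C hC).2.ge⟩) hC2 τ f s hτ hf hs
    (by
      intro z hz
      have h1 := hdeg z
      have h2 : univ.filter (fun x => G.Adj z x) ⊆ Z.filter (fun x => G.Adj z x) ∪
          W.filter (fun x => G.Adj z x) := by
        intro x hx
        by_cases hxW : x ∈ W
        · exact Finset.mem_union_right _ (Finset.mem_filter.2 ⟨hxW, (Finset.mem_filter.1 hx).2⟩)
        · exact Finset.mem_union_left _ (Finset.mem_filter.2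
            ⟨(hZ x).2 hxW, (Finset.mem_filter.1 hx).2⟩)
      have h3 := (Finset.card_le_card h2).trans (Finset.card_union_le _ _)
      have h4 : (Z.filter (fun x => G.Adj z x)).card < M := (Finset.mem_filter.1 hz).2
      omega)
  refine ⟨fun x => if x ∈ W then cW x else cZ x, fun v j => ?_⟩
  by_cases hvW : v ∈ W
  · obtain ⟨C, hC, hvC⟩ := Finset.mem_biUnion.1 hvW
    obtain ⟨x, hx, hxj⟩ := hcW1 C hC j
    refine ⟨x, ?_, ?_⟩
    · by_cases hxv : x = v
      · exact Or.inl hxv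
      · exact Or.inr ((hC1 C hC).1 v hvC x hx (Ne.symm hxv))
    · simp only [if_pos (hCW C hC hx)]
      exact hxj
  · have hvZ : v ∈ Z := (hZ v).2 hvW
    by_cases hlight : (Z.filter (fun x => G.Adj v x)).card < M
    · obtain ⟨x, hx, hvx, hxj⟩ := hcW2 v (Finset.mem_filter.2 ⟨hvZ, hlight⟩) j
      refine ⟨x, Or.inr hvx, ?_⟩
      simp only [if_pos hx]
      exact hxj
    · obtain ⟨x, hx, hvx, hxj⟩ := hcZ v hvZ (by rw [← hM]; exact not_lt.1 hlight) j
      refine ⟨x, Or.inr hvx, ?_⟩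
      simp only [if_neg ((hZ x).1 hx)]
      exact hxj

end Pool.Agent.Q221.Dom
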