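import Pool.Agent.Q221.Dom.ZPart

/-!
# The part covered by large cliques
-/

namespace Pool.Agent.Q221.Dom

open Finset
open scoped Classical

variable {V : Type}

theorem nested {G : SimpleGraph V} {t M : ℕ} (hM : 0 < M) (hS : SFree t G)
    (L : Finset V) (hL : ∀ z ∈ L, (L.filter (fun y => G.Adj z y)).card < M) {x y : V}
    (hxy : G.Adj x y) (hx : x ∉ L) (hy : y ∉ L)
    (hcard : (L.filter (fun z => G.Adj x z)).card ≤ (L.filter (fun z => G.Adj y z)).card) :
    (L.filter (fun z => G.Adj x z ∧ ¬ G.Adj y z)).card < 2 * (t * M) := by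
  by_contra hcon
  push Not at hcon
  have e1 := Finset.card_filter_add_card_filter_not (s := L.filter (fun z => G.Adj x z))
    (p := fun z => G.Adj y z)
  have e2 := Finset.card_filter_add_card_filter_not (s := L.filter (fun z => G.Adj y z))
    (p := fun z => G.Adj x z)
  rw [Finset.filter_filter, Finset.filter_filter] at e1 e2
  have e3 : L.filter (fun z => G.Adj x z ∧ G.Adj y z) = L.filter (fun z => G.Adj y z ∧ G.Adj x z) :=
    Finset.filter_congr (fun z _ => and_comm)
  rw [e3] at e1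
  have e4 : 2 * (t * M) ≤ (L.filter (fun z => G.Adj y z ∧ ¬ G.Adj x z)).card := by omega
  obtain ⟨A, hA, hAc, hAi⟩ := ind_of_deg (G := G) M hM t
    (L.filter (fun z => G.Adj x z ∧ ¬ G.Adj y z)) (fun z hz => lt_of_le_of_lt
      (Finset.card_le_card (Finset.filter_subset_filter _ (Finset.filter_subset _ _)))
      (hL z (Finset.mem_filter.1 hz).1)) (by omega)
  have hA2 : ∀ a ∈ A, a ∈ L ∧ G.Adj x a ∧ ¬ G.Adj y a := fun a ha => Finset.mem_filter.1 (hA ha)
  have hsub : L.filter (fun z => G.Adj y z ∧ ¬ G.Adj x z) ⊆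
      (L.filter (fun z => G.Adj y z ∧ ¬ G.Adj x z)).filter (fun z => ∀ a ∈ A, ¬ G.Adj a z) ∪
        A.biUnion (fun a => L.filter (fun z => G.Adj a z)) := by
    intro z hz
    by_cases h : ∀ a ∈ A, ¬ G.Adj a z
    · exact Finset.mem_union_left _ (Finset.mem_filter.2 ⟨hz, h⟩)
    · push Not at h
      obtain ⟨a, ha, haz⟩ := h
      exact Finset.mem_union_right _ (Finset.mem_biUnion.2 ⟨a, ha,
        Finset.mem_filter.2 ⟨(Finset.mem_filter.1 hz).1, haz⟩⟩)
  have e5 := (Finset.card_le_card hsub).trans (Finset.card_union_le _ _)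
  have e6 := Finset.card_biUnion_le_card_mul A (fun a => L.filter (fun z => G.Adj a z)) M
    (fun a ha => (hL a (hA2 a ha).1).le)
  rw [hAc] at e6
  obtain ⟨B, hB, hBc, hBi⟩ := ind_of_deg (G := G) M hM t
    ((L.filter (fun z => G.Adj y z ∧ ¬ G.Adj x z)).filter (fun z => ∀ a ∈ A, ¬ G.Adj a z))
    (fun z hz => lt_of_le_of_lt (Finset.card_le_card (Finset.filter_subset_filter _
      ((Finset.filter_subset _ _).trans (Finset.filter_subset _ _))))
      (hL z (Finset.mem_filter.1 (Finset.mem_filter.1 hz).1).1)) (by omega)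
  have hB2 : ∀ b ∈ B, b ∈ L ∧ (G.Adj y b ∧ ¬ G.Adj x b) ∧ ∀ a ∈ A, ¬ G.Adj a b := by
    intro b hb
    have h1 := Finset.mem_filter.1 (hB hb)
    have h2 := Finset.mem_filter.1 h1.1
    exact ⟨h2.1, h2.2, h1.2⟩
  exact hS x y hxy A B hAc hBc (fun a ha => (hA2 a ha).2) (fun b hb => (hB2 b hb).2.1)
    (fun a ha h => hy (h ▸ (hA2 a ha).1)) (fun b hb h => hx (h ▸ (hB2 b hb).1)) hAi hBi
    (fun a ha b hb => (hB2 b hb).2.2 a ha)

theorem clique_minus {G : SimpleGraph V} {k : ℕ} {C : Finset V} (hC : Clq G C)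
    (hc : 5 * k ≤ C.card) (Φ : ℕ → Finset V) (hΦ : ∀ j < k, Ind G (Φ j)) :
    4 * k ≤ (C.filter (fun x => ∀ j < k, x ∉ Φ j)).card := by
  have hsub : C ⊆ C.filter (fun x => ∀ j < k, x ∉ Φ j) ∪
      (Finset.range k).biUnion (fun j => C.filter (fun x => x ∈ Φ j)) := by
    intro x hx
    by_cases h : ∀ j < k, x ∉ Φ j
    · exact Finset.mem_union_left _ (Finset.mem_filter.2 ⟨hx, h⟩)
    · push Not at h
      obtain ⟨j, hj, hxj⟩ := h
      exact Finset.mem_union_right _ (Finset.mem_biUnion.2 ⟨j, Finset.mem_range.2 hj,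
        Finset.mem_filter.2 ⟨hx, hxj⟩⟩)
  have e1 := (Finset.card_le_card hsub).trans (Finset.card_union_le _ _)
  have e2 := Finset.card_biUnion_le_card_mul (Finset.range k)
    (fun j => C.filter (fun x => x ∈ Φ j)) 1 (by
      intro j hj
      rw [Finset.card_le_one]
      intro x hx y hy
      rw [Finset.mem_filter] at hx hy
      by_contra hne
      exact hΦ j (Finset.mem_range.1 hj) x hx.2 y hy.2 (hC x hx.1 y hy.1 hne))
  rw [Finset.card_range] at e2
  omega

theorem w_part [Fintype V] {G : SimpleGraph V} {t k M : ℕ} (ht : 0 < t) (hk : 0 < k)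
    (hM : 0 < M) (hS : SFree t G) (W L : Finset V) (hWL : Disjoint W L)
    (hL : ∀ z ∈ L, (L.filter (fun y => G.Adj z y)).card < M) (𝒞 : Finset (Finset V))
    (hC : ∀ C ∈ 𝒞, C ⊆ W ∧ Clq G C ∧ 5 * k ≤ C.card)
    (hCd : ∀ C ∈ 𝒞, ∀ C' ∈ 𝒞, C ≠ C' → Disjoint C C') (τ f s : ℕ) (hτ : τ = 2 * (t * M))
    (hf : f = M + (4 * k) ^ t * (t * M)) (hs : s = 4 * k * (k * τ))
    (hdeg : ∀ z ∈ L, s + k * (t * (4 * k)) + 4 * k * f ≤
      (W.filter (fun x => G.Adj z x)).card) :
    ∃ col : V → Fin k, (∀ C ∈ 𝒞, ∀ j, ∃ x ∈ C, col x = j) ∧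
      ∀ z ∈ L, ∀ j, ∃ x ∈ W, G.Adj z x ∧ col x = j := by
  have h4k : 0 < 4 * k := by omega
  have hf0 : 0 < f := by omega
  have hτ0 : 0 < τ := by rw [hτ]; positivity
  obtain ⟨U, 𝓑, hU, hB, hBd, h1, h2⟩ := block_lemma (G := G) (t := t) (b := 4 * k) (M := M)
    ht h4k hM hS W L hL
  -- the rank
  let ρ : V → ℕ := fun x => (L.filter (fun z => G.Adj x z)).card * Fintype.card V +
    (Fintype.equivFin V x).val
  have hρ1 : ∀ x y, ρ x < ρ y →
      (L.filter (fun z => G.Adj x z)).card ≤ (L.filter (fun z => G.Adj y z)).card := by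
    intro x y hxy
    by_contra hcon
    push Not at hcon
    have e1 : (Fintype.equivFin V y).val < Fintype.card V := (Fintype.equivFin V y).isLt
    have e2 : (L.filter (fun z => G.Adj x z)).card * Fintype.card V +
      (Fintype.equivFin V x).val < (L.filter (fun z => G.Adj y z)).card * Fintype.card V +
      (Fintype.equivFin V y).val := hxy
    have e3 : ((L.filter (fun z => G.Adj y z)).card + 1) * Fintype.card V ≤
      (L.filter (fun z => G.Adj x z)).card * Fintype.card V := Nat.mul_le_mul_right _ hcon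
    rw [add_mul, one_mul] at e3
    omega
  have hρ2 : Function.Injective ρ := by
    intro x y hxy
    have e0 : (L.filter (fun z => G.Adj x z)).card * Fintype.card V +
      (Fintype.equivFin V x).val = (L.filter (fun z => G.Adj y z)).card * Fintype.card V +
      (Fintype.equivFin V y).val := hxy
    have e1 : (Fintype.equivFin V y).val < Fintype.card V := (Fintype.equivFin V y).isLt
    have e2 : (Fintype.equivFin V x).val < Fintype.card V := (Fintype.equivFin V x).isLt
    have e3 : (L.filter (fun z => G.Adj x z)).card = (L.filter (fun z => G.Adj y z)).card := by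
      rcases lt_trichotomy (L.filter (fun z => G.Adj x z)).card
        (L.filter (fun z => G.Adj y z)).card with h | h | h
      · have := Nat.mul_le_mul_right (Fintype.card V) (Nat.succ_le_of_lt h)
        rw [Nat.succ_eq_add_one, add_mul, one_mul] at this
        omega
      · exact h
      · have := Nat.mul_le_mul_right (Fintype.card V) (Nat.succ_le_of_lt h)
        rw [Nat.succ_eq_add_one, add_mul, one_mul] at this
        omega
    rw [e3] at e0
    exact (Fintype.equivFin V).injective (Fin.ext (by omega))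
  obtain ⟨Φ, hΦ1, hΦ2, hΦ3⟩ := levels (G := G) ρ hρ2 (W \ U) k
  have hw : ∀ (x : V) (j : ℕ), ∃ y, x ∈ W \ U → (∀ j < k, x ∉ Φ j) → j < k →
      y ∈ Φ j ∧ G.Adj x y ∧ ρ x < ρ y := by
    intro x j
    by_cases h : x ∈ W \ U ∧ (∀ j < k, x ∉ Φ j) ∧ j < k
    · obtain ⟨y, hy⟩ := hΦ3 x h.1 h.2.1 j h.2.2
      exact ⟨y, fun _ _ _ => hy⟩
    · exact ⟨x, fun a b c => absurd ⟨a, b, c⟩ h⟩
  choose w hw using hw
  let Rst : Finset V := (W \ U).filter (fun x => ∀ j < k, x ∉ Φ j)
  have hRst : ∀ x, x ∈ Rst ↔ x ∈ W \ U ∧ ∀ j < k, x ∉ Φ j := fun x => Finset.mem_filter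
  have hexc : ∀ x ∈ Rst, (L.filter (fun z => G.Adj z x ∧ ∃ j < k, ¬ G.Adj z (w x j))).card ≤
      k * τ := by
    intro x hx
    obtain ⟨hx1, hx2⟩ := (hRst x).1 hx
    have hsub : L.filter (fun z => G.Adj z x ∧ ∃ j < k, ¬ G.Adj z (w x j)) ⊆
        (Finset.range k).biUnion (fun j => L.filter (fun z => G.Adj x z ∧ ¬ G.Adj (w x j) z)) := by
      intro z hz
      obtain ⟨hz1, hz2, j, hj, hz3⟩ := Finset.mem_filter.1 hz
      exact Finset.mem_biUnion.2 ⟨j, Finset.mem_range.2 hj, Finset.mem_filter.2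
        ⟨hz1, hz2.symm, fun h => hz3 h.symm⟩⟩
    have e2 := Finset.card_biUnion_le_card_mul (Finset.range k)
      (fun j => L.filter (fun z => G.Adj x z ∧ ¬ G.Adj (w x j) z)) τ (by
        intro j hj
        obtain ⟨a1, a2, a3⟩ := hw x j hx1 hx2 (Finset.mem_range.1 hj)
        rw [hτ]
        refine (nested hM hS L hL a2 ?_ ?_ (hρ1 _ _ a3)).le
        · exact Finset.disjoint_left.1 hWL (Finset.mem_sdiff.1 hx1).1
        · exact Finset.disjoint_left.1 hWL
            (Finset.mem_sdiff.1 ((hΦ1 j (Finset.mem_range.1 hj)).1 a1)).1)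
    rw [Finset.card_range] at e2
    exact (Finset.card_le_card hsub).trans e2
  -- the customers
  obtain ⟨c, hc0, hc1, hc2, hc3⟩ := poly4 k hk 𝓑
    (𝒞.image (fun C => C.filter (fun x => ∀ j < k, x ∉ Φ j)))
    ((L.filter (fun z => (∀ x ∈ Rst, G.Adj z x → ∃ j < k, ¬ G.Adj z (w x j)) ∧
      s ≤ (Rst.filter (fun x => G.Adj z x)).card)).image (fun z => Rst.filter (fun x => G.Adj z x)))
    ((L.filter (fun z => Bad G 𝓑 z ∧
      4 * k * f ≤ (U.filter (fun x => G.Adj z x)).card)).image
      (fun z => U.filter (fun x => G.Adj z x)))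
    (4 * k) (4 * k) s (4 * k * f) 1 1 (k * τ) f h4k h4k
    (by rw [hs]; positivity) (by positivity)
    (fun T hT => (hB T hT).1.ge)
    (by
      intro T hT
      obtain ⟨C, hC', rfl⟩ := Finset.mem_image.1 hT
      exact clique_minus (hC C hC').2.1 (hC C hC').2.2 Φ (fun j hj => (hΦ1 j hj).2))
    (by
      intro T hT
      obtain ⟨z, hz, rfl⟩ := Finset.mem_image.1 hT
      exact (Finset.mem_filter.1 hz).2.2)
    (by
      intro T hT
      obtain ⟨z, hz, rfl⟩ := Finset.mem_image.1 hT
      exact (Finset.mem_filter.1 hz).2.2)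
    (disjoint_indeg hBd)
    (disjoint_indeg (by
      intro T hT T' hT' hne
      obtain ⟨C, hC1, rfl⟩ := Finset.mem_image.1 hT
      obtain ⟨C', hC2, rfl⟩ := Finset.mem_image.1 hT'
      exact Finset.disjoint_of_subset_left (Finset.filter_subset _ _)
        (Finset.disjoint_of_subset_right (Finset.filter_subset _ _)
        (hCd C hC1 C' hC2 (fun h => hne (by rw [h]))))))
    (by
      intro x
      refine image_indeg x (fun hx => ?_)
      refine (Finset.card_le_card ?_).trans (hexc x hx)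
      intro z hz
      obtain ⟨hz1, hz2⟩ := Finset.mem_filter.1 hz
      obtain ⟨hz3, hz4, hz5⟩ := Finset.mem_filter.1 hz1
      exact Finset.mem_filter.2 ⟨hz3, hz2, hz4 x hx hz2⟩)
    (by
      intro x
      refine image_indeg x (fun hx => ?_)
      rw [hf]
      refine (Finset.card_le_card ?_).trans (h2 x hx)
      intro z hz
      obtain ⟨hz1, hz2⟩ := Finset.mem_filter.1 hz
      obtain ⟨hz3, hz4, hz5⟩ := Finset.mem_filter.1 hz1
      exact Finset.mem_filter.2 ⟨hz3, hz2, hz4⟩)
    (by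
      have hk' : (0 : ℚ) < k := by exact_mod_cast hk
      have hf' : (0 : ℚ) < f := by exact_mod_cast hf0
      have hτ' : (0 : ℚ) < τ := by exact_mod_cast hτ0
      rw [hs]
      push_cast
      refine le_of_eq ?_
      field_simp
      norm_num)
  -- the final colouring
  have hcol : ∃ col : V → Fin k, (∀ x, (∀ j < k, x ∉ Φ j) → col x = c x) ∧
      ∀ j : Fin k, ∀ x ∈ Φ j, col x = j := by
    refine ⟨fun x => if h : ∃ j : Fin k, x ∈ Φ j then Classical.choose h else c x, ?_, ?_⟩
    · intro x hx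
      have : ¬ ∃ j : Fin k, x ∈ Φ j := fun ⟨j, hj⟩ => hx j j.isLt hj
      simp only [dif_neg this]
    · intro j x hx
      have h : ∃ j : Fin k, x ∈ Φ j := ⟨j, hx⟩
      simp only [dif_pos h]
      have h' := Classical.choose_spec h
      by_contra hne
      have := hΦ2 _ (Classical.choose h).isLt _ j.isLt (fun h => hne (Fin.ext h))
      exact Finset.disjoint_left.1 this h' hx
  obtain ⟨col, hcola, hcolb⟩ := hcol
  refine ⟨col, fun C hC' j => ?_, fun z hz j => ?_⟩
  · obtain ⟨x, hx, hxj⟩ := hc1 _ (Finset.mem_image_of_mem _ hC') j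
    obtain ⟨hx1, hx2⟩ := Finset.mem_filter.1 hx
    exact ⟨x, hx1, (hcola x hx2).trans hxj⟩
  · by_cases hA : ∀ x ∈ Rst, G.Adj z x → ∃ j < k, ¬ G.Adj z (w x j)
    · by_cases hB1 : s ≤ (Rst.filter (fun x => G.Adj z x)).card
      · obtain ⟨x, hx, hxj⟩ := hc2 _ (Finset.mem_image_of_mem _
          (Finset.mem_filter.2 ⟨hz, hA, hB1⟩)) j
        obtain ⟨hx1, hx2⟩ := Finset.mem_filter.1 hx
        obtain ⟨hx3, hx4⟩ := (hRst x).1 hx1
        exact ⟨x, (Finset.mem_sdiff.1 hx3).1, hx2, (hcola x hx4).trans hxj⟩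
      · -- many neighbours in `U`
        have hUΦ : ∀ x ∈ U, ∀ j < k, x ∉ Φ j := fun x hx j hj h =>
          (Finset.mem_sdiff.1 ((hΦ1 j hj).1 h)).2 hx
        have hbig : 4 * k * f ≤ (U.filter (fun x => G.Adj z x)).card := by
          have hsub : W.filter (fun x => G.Adj z x) ⊆ (U.filter (fun x => G.Adj z x) ∪
              Rst.filter (fun x => G.Adj z x)) ∪
              (Finset.range k).biUnion (fun j => (Φ j).filter (fun x => G.Adj z x)) := by
            intro x hx
            obtain ⟨hx1, hx2⟩ := Finset.mem_filter.1 hx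
            by_cases hxU : x ∈ U
            · exact Finset.mem_union_left _ (Finset.mem_union_left _
                (Finset.mem_filter.2 ⟨hxU, hx2⟩))
            · by_cases hxΦ : ∀ j < k, x ∉ Φ j
              · exact Finset.mem_union_left _ (Finset.mem_union_right _
                  (Finset.mem_filter.2 ⟨(hRst x).2 ⟨Finset.mem_sdiff.2 ⟨hx1, hxU⟩, hxΦ⟩, hx2⟩))
              · push Not at hxΦ
                obtain ⟨i, hi, hxi⟩ := hxΦ
                exact Finset.mem_union_right _ (Finset.mem_biUnion.2 ⟨i, Finset.mem_range.2 hi,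
                  Finset.mem_filter.2 ⟨hxi, hx2⟩⟩)
          have e1 := (Finset.card_le_card hsub).trans ((Finset.card_union_le _ _).trans
            (Nat.add_le_add_right (Finset.card_union_le _ _) _))
          have e2 := Finset.card_biUnion_le_card_mul (Finset.range k)
            (fun j => (Φ j).filter (fun x => G.Adj z x)) (t * (4 * k)) (by
              intro i hi
              by_contra hcon
              push Not at hcon
              obtain ⟨J, hJ, hJc⟩ := Finset.exists_subset_card_eq hcon.le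
              obtain ⟨b1, b2⟩ := hΦ1 i (Finset.mem_range.1 hi)
              exact h1 z hz J (hJ.trans ((Finset.filter_subset _ _).trans b1))
                (fun x hx => (Finset.mem_filter.1 (hJ hx)).2)
                (b2.mono (hJ.trans (Finset.filter_subset _ _))) hJc)
          rw [Finset.card_range] at e2
          have e3 := hdeg z hz
          omega
        by_cases hbad : Bad G 𝓑 z
        · obtain ⟨x, hx, hxj⟩ := hc3 _ (Finset.mem_image_of_mem _
            (Finset.mem_filter.2 ⟨hz, hbad, hbig⟩)) j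
          obtain ⟨hx1, hx2⟩ := Finset.mem_filter.1 hx
          exact ⟨x, hU hx1, hx2, (hcola x (hUΦ x hx1)).trans hxj⟩
        · unfold Bad at hbad
          push Not at hbad
          obtain ⟨B, hB1, hB2⟩ := hbad
          obtain ⟨x, hx, hxj⟩ := hc0 B hB1 j
          exact ⟨x, hU ((hB B hB1).2 hx), hB2 x hx,
            (hcola x (hUΦ x ((hB B hB1).2 hx))).trans hxj⟩
    · push Not at hA
      obtain ⟨x, hx, hzx, hall⟩ := hA
      obtain ⟨hx1, hx2⟩ := (hRst x).1 hx
      obtain ⟨a1, a2, a3⟩ := hw x j hx1 hx2 j.isLt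
      exact ⟨w x j, (Finset.mem_sdiff.1 ((hΦ1 j j.isLt).1 a1)).1, hall j j.isLt, hcolb j _ a1⟩

end Pool.Agent.Q221.Dom
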