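import Pool.Agent.Q221.Dom.Levels
import Pool.Agent.Q221.Dom.Block

/-!
# The part without large cliques
-/

namespace Pool.Agent.Q221.Dom

open Finset
open scoped Classical

variable {V : Type}

/-- each vertex of `Y` with many neighbours in `X` has many neighbours in `U` -/
theorem many_in_U {G : SimpleGraph V} {X U : Finset V} {n p q : ℕ} {y : V}
    (h1 : ∀ J ⊆ X \ U, (∀ x ∈ J, G.Adj y x) → Ind G J → J.card ≠ n)
    (hX : Ind G X) (hp : n + q ≤ p)
    (hy : p ≤ (X.filter (fun x => G.Adj y x)).card) :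
    q ≤ (U.filter (fun x => G.Adj y x)).card := by
  by_contra hcon
  push Not at hcon
  have h2 : X.filter (fun x => G.Adj y x) ⊆
      U.filter (fun x => G.Adj y x) ∪ (X \ U).filter (fun x => G.Adj y x) := by
    intro x hx
    rw [Finset.mem_filter] at hx
    by_cases hxU : x ∈ U
    · exact Finset.mem_union_left _ (Finset.mem_filter.2 ⟨hxU, hx.2⟩)
    · exact Finset.mem_union_right _ (Finset.mem_filter.2 ⟨Finset.mem_sdiff.2 ⟨hx.1, hxU⟩, hx.2⟩)
  have h3 := (Finset.card_le_card h2).trans (Finset.card_union_le _ _)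
  have h4 : n ≤ ((X \ U).filter (fun x => G.Adj y x)).card := by omega
  obtain ⟨J, hJ, hJc⟩ := Finset.exists_subset_card_eq h4
  exact h1 J (hJ.trans (Finset.filter_subset _ _)) (fun x hx => (Finset.mem_filter.1 (hJ hx)).2)
    (hX.mono (hJ.trans ((Finset.filter_subset _ _).trans Finset.sdiff_subset))) hJc

/-- in-degree of a family of neighbourhoods -/
theorem image_indeg {G : SimpleGraph V} {Y U : Finset V} {f : ℕ} (x : V)
    (h : x ∈ U → (Y.filter (fun z => G.Adj z x)).card ≤ f) :
    ((Y.image (fun z => U.filter (fun x => G.Adj z x))).filter (fun T => x ∈ T)).card ≤ f := by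
  have h1 : (Y.image (fun z => U.filter (fun x => G.Adj z x))).filter (fun T => x ∈ T) ⊆
      (Y.filter (fun z => x ∈ U ∧ G.Adj z x)).image (fun z => U.filter (fun x => G.Adj z x)) := by
    intro T hT
    obtain ⟨hT1, hT2⟩ := Finset.mem_filter.1 hT
    obtain ⟨z, hz, rfl⟩ := Finset.mem_image.1 hT1
    exact Finset.mem_image.2 ⟨z, Finset.mem_filter.2 ⟨hz, Finset.mem_filter.1 hT2⟩, rfl⟩
  refine (Finset.card_le_card h1).trans (Finset.card_image_le.trans ?_)
  by_cases hx : x ∈ U
  · refine (Finset.card_le_card ?_).trans (h hx)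
    intro z hz
    rw [Finset.mem_filter] at hz ⊢
    exact ⟨hz.1, hz.2.2⟩
  · have : Y.filter (fun z => x ∈ U ∧ G.Adj z x) = ∅ := by
      rw [Finset.filter_eq_empty_iff]
      intro z _ hz
      exact hx hz.1
    rw [this]
    exact Nat.zero_le _

/-- in-degree of a disjoint family -/
theorem disjoint_indeg {S : Finset (Finset V)} (h : ∀ B ∈ S, ∀ B' ∈ S, B ≠ B' → Disjoint B B')
    (x : V) : (S.filter (fun T => x ∈ T)).card ≤ 1 := by
  rw [Finset.card_le_one]
  intro B hB B' hB'
  rw [Finset.mem_filter] at hB hB'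
  by_contra hne
  exact (Finset.disjoint_left.1 (h B hB.1 B' hB'.1 hne)) hB.2 hB'.2

/-- bad vertices: no block in the neighbourhood -/
def Bad (G : SimpleGraph V) (𝓑 : Finset (Finset V)) (z : V) : Prop :=
  ∀ B ∈ 𝓑, ∃ w ∈ B, ¬ G.Adj z w

theorem z_part [Fintype V] {G : SimpleGraph V} {t k c : ℕ} (ht : 0 < t) (hk : 0 < k)
    (hc : 0 < c) (hS : SFree t G) (Z : Finset V) (χ : V → Fin c)
    (hχ : ∀ x ∈ Z, ∀ y ∈ Z, G.Adj x y → χ x ≠ χ y) (b f p : ℕ) (hb : b = 2 * k * c ^ 2)
    (hf : f = 1 + b ^ t * (t * 1)) (hp : p = t * b + b * f) :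
    ∃ col : V → Fin k, ∀ z ∈ Z, c * p ≤ (Z.filter (fun x => G.Adj z x)).card →
      ∀ j, ∃ x ∈ Z, G.Adj z x ∧ col x = j := by
  have hb0 : 0 < b := by rw [hb]; positivity
  have hf0 : 0 < f := by omega
  have hXi : ∀ j, Ind G (Z.filter (fun x => χ x = j)) := by
    intro j x hx y hy h
    rw [Finset.mem_filter] at hx hy
    exact hχ x hx.1 y hy.1 h (hx.2.trans hy.2.symm)
  have key : ∀ q : Fin c × Fin c, ∃ (U : Finset V) (𝓑 : Finset (Finset V)),
      U ⊆ Z.filter (fun x => χ x = q.2) ∧ (∀ B ∈ 𝓑, B.card = b ∧ B ⊆ U) ∧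
      (∀ B ∈ 𝓑, ∀ B' ∈ 𝓑, B ≠ B' → Disjoint B B') ∧
      (∀ y ∈ Z.filter (fun z => χ z = q.1), ∀ J ⊆ Z.filter (fun x => χ x = q.2) \ U,
        (∀ x ∈ J, G.Adj y x) → Ind G J → J.card ≠ t * b) ∧
      (∀ x ∈ U, ((Z.filter (fun z => χ z = q.1)).filter
        (fun z => G.Adj z x ∧ ∀ B ∈ 𝓑, ∃ w ∈ B, ¬ G.Adj z w)).card ≤ f) := by
    intro q
    have h1 := block_lemma (G := G) (t := t) (b := b) (M := 1) ht hb0 one_pos hS
      (Z.filter (fun x => χ x = q.2)) (Z.filter (fun z => χ z = q.1)) (by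
        intro y hy
        have : (Z.filter (fun z => χ z = q.1)).filter (fun z => G.Adj y z) = ∅ := by
          rw [Finset.filter_eq_empty_iff]
          intro z hz
          exact hXi q.1 y hy z hz
        rw [this]
        exact one_pos)
    rw [hf]
    exact h1
  choose U 𝓑 hU hB hBd h1 h2 using key
  -- the customers
  let bad : Fin c × Fin c → Finset V := fun q => (Z.filter (fun z => χ z = q.1)).filter
    (fun z => Bad G (𝓑 q) z ∧ b * f ≤ ((U q).filter (fun x => G.Adj z x)).card)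
  obtain ⟨col, hcol⟩ := poly_families (Φ := (Fin c × Fin c) × Bool) k hk
    (fun φ => if φ.2 then 𝓑 φ.1 else
      (bad φ.1).image (fun z => (U φ.1).filter (fun x => G.Adj z x)))
    (fun φ => if φ.2 then b else b * f) (fun φ => if φ.2 then 1 else f)
    (by
      rintro ⟨q, _ | _⟩
      · simpa using ⟨hb0, hf0⟩
      · simpa using hb0)
    (by
      rintro ⟨q, _ | _⟩ T hT
      · simp only [Bool.false_eq_true, if_false] at hT ⊢
        obtain ⟨z, hz, rfl⟩ := Finset.mem_image.1 hT
        exact (Finset.mem_filter.1 hz).2.2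
      · simp only [if_true] at hT ⊢
        exact (hB q T hT).1.ge)
    (by
      rintro ⟨q, _ | _⟩ x
      · simp only [Bool.false_eq_true, if_false]
        refine image_indeg x (fun hx => ?_)
        refine (Finset.card_le_card ?_).trans (h2 q x hx)
        intro z hz
        obtain ⟨hz1, hz2⟩ := Finset.mem_filter.1 hz
        obtain ⟨hz3, hz4, hz5⟩ := Finset.mem_filter.1 hz1
        exact Finset.mem_filter.2 ⟨hz3, hz2, hz4⟩
      · simp only [if_true]
        exact disjoint_indeg (hBd q) x)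
    (by
      have hb' : (0 : ℚ) < b := by exact_mod_cast hb0
      have hf' : (0 : ℚ) < f := by exact_mod_cast hf0
      have hterm : ∀ φ : (Fin c × Fin c) × Bool,
          (((if φ.2 then 1 else f : ℕ) : ℚ)) / ((if φ.2 then b else b * f : ℕ) : ℚ) = 1 / b := by
        rintro ⟨q, _ | _⟩
        · simp only [Bool.false_eq_true, if_false]
          push_cast
          field_simp
        · simp
      rw [Finset.sum_congr rfl (fun φ _ => hterm φ), Finset.sum_const, Finset.card_univ,
        Fintype.card_prod, Fintype.card_prod, Fintype.card_fin, Fintype.card_bool, nsmul_eq_mul, hb]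
      have hk' : (0 : ℚ) < k := by exact_mod_cast hk
      have hc' : (0 : ℚ) < c := by exact_mod_cast hc
      push_cast
      refine le_of_eq ?_
      field_simp)
  refine ⟨col, fun z hz hdeg j => ?_⟩
  -- a class with many neighbours
  obtain ⟨i, hi⟩ : ∃ i : Fin c, p ≤
      ((Z.filter (fun x => χ x = i)).filter (fun x => G.Adj z x)).card := by
    by_contra hcon
    push Not at hcon
    have e1 := Finset.card_eq_sum_card_fiberwise (f := χ) (s := Z.filter (fun x => G.Adj z x))
      (t := univ) (fun x _ => Finset.mem_univ _)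
    have e2 : ∀ i : Fin c, ((Z.filter (fun x => G.Adj z x)).filter (fun x => χ x = i)).card < p := by
      intro i
      rw [Finset.filter_comm]
      exact hcon i
    have e3 : ∑ i : Fin c, ((Z.filter (fun x => G.Adj z x)).filter (fun x => χ x = i)).card <
        ∑ i : Fin c, p :=
      Finset.sum_lt_sum_of_nonempty ⟨⟨0, hc⟩, Finset.mem_univ _⟩ (fun i _ => e2 i)
    rw [Finset.sum_const, Finset.card_univ, Fintype.card_fin, smul_eq_mul] at e3
    omega
  have hzi : z ∈ Z.filter (fun x => χ x = χ z) := Finset.mem_filter.2 ⟨hz, rfl⟩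
  have hbig : b * f ≤ ((U (χ z, i)).filter (fun x => G.Adj z x)).card :=
    many_in_U (h1 (χ z, i) z hzi) (hXi i) hp.ge hi
  by_cases hbad : Bad G (𝓑 (χ z, i)) z
  · obtain ⟨x, hx, hxj⟩ := hcol ((χ z, i), false) ((U (χ z, i)).filter (fun x => G.Adj z x)) (by
      simp only [Bool.false_eq_true, if_false]
      exact Finset.mem_image.2 ⟨z, Finset.mem_filter.2 ⟨hzi, hbad, hbig⟩, rfl⟩) j
    obtain ⟨hx1, hx2⟩ := Finset.mem_filter.1 hx
    exact ⟨x, (Finset.mem_filter.1 (hU _ hx1)).1, hx2, hxj⟩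
  · unfold Bad at hbad
    push Not at hbad
    obtain ⟨B, hB1, hB2⟩ := hbad
    obtain ⟨x, hx, hxj⟩ := hcol ((χ z, i), true) B (by
      simp only [if_true]
      exact hB1) j
    exact ⟨x, (Finset.mem_filter.1 (hU _ ((hB _ B hB1).2 hx))).1, hB2 x hx, hxj⟩

end Pool.Agent.Q221.Dom
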